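import Pool.Agent.H820R3.BSDN.G1
import Pool.Agent.H438R3.BSD.NF3

/-! The complex form of the bound for the local errors, for traces of Frobenius (after
helper438's `GenN3.lean`), and for elliptic curves over number fields. -/

set_option autoImplicit false

open Complex Filter Topology Finset

namespace Pool.Agent.H820R3.BSDN

open Pool.Agent.H438R3.BSD Pool.Agent.H438R3.BSD.GenN

section

variable {good : ℕ → Prop} [DecidablePred good] {c : ℕ → ℕ → ℝ}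
variable {K : ℝ} (hgood : ∀ p, good p → 2 ≤ p) (hK : 0 ≤ K)
  (hc : ∀ p, good p → ∀ m : ℕ, 1 ≤ m → |c p m| ≤ K * (p : ℝ) ^ ((m : ℝ) / 2))

include hgood hK hc

lemma ddcomplex (n : ℕ) (hnp : n.Prime) (w : ℂ) (hw : 0 < w.re) :
    ‖GenN.dd (GenN.LLc good c) (GenN.ellc good c) n (1 + w)‖ ≤
      4 * K * ((n : ℝ) ^ (-(1 + w.re)) - (n : ℝ) ^ (-(1 + (w.re + ‖w‖))) +
        (n : ℝ) ^ (-(3 / 2) : ℝ)) := by
  have hn : 2 ≤ n := hnp.two_le
  have hn1 : (1 : ℝ) ≤ n := by exact_mod_cast (by omega : 1 ≤ n)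
  have hn0 : (0 : ℝ) < n := by exact_mod_cast (by omega : 0 < n)
  have hnpos : 0 < n := by omega
  have hnw := norm_nonneg w
  have hnn : 0 ≤ (n : ℝ) ^ (-(1 + w.re)) - (n : ℝ) ^ (-(1 + (w.re + ‖w‖))) := by
    rw [sub_nonneg]
    exact Real.rpow_le_rpow_of_exponent_le hn1 (by linarith)
  by_cases hp : good n
  · have hre : 1 ≤ ((1 : ℂ) + w).re := by simp; linarith
    obtain ⟨h1, h2⟩ := GenN.dd_eq_tsum hgood hK hc hp (1 + w) hre
    have hnc : (n : ℂ) ≠ 0 := by exact_mod_cast (by omega : n ≠ 0)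
    rw [h2, h1.tsum_eq_zero_add]
    have e0 : (c n (0 + 1) : ℂ) / (((0 : ℕ) : ℂ) + 1) *
        ((n : ℂ) ^ (-((((0 : ℕ) : ℂ) + 1) * (1 + w))) - (n : ℂ) ^ (-(((0 : ℕ) : ℂ) + 1)) *
          (n : ℂ) ^ (1 - (1 + (w : ℂ)))) = 0 := by
      have : (n : ℂ) ^ (-((((0 : ℕ) : ℂ) + 1) * (1 + w))) =
          (n : ℂ) ^ (-(((0 : ℕ) : ℂ) + 1)) * (n : ℂ) ^ (1 - (1 + (w : ℂ))) := by
        rw [← Complex.cpow_add _ _ hnc]
        congr 1
        push_cast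
        ring
      rw [this, sub_self, mul_zero]
    rw [e0, zero_add]
    have hs2 := (summable_nat_add_iff 1).2 h1
    rw [hs2.tsum_eq_zero_add]
    -- the main term
    have ht0 : ‖(c n (0 + 1 + 1) : ℂ) / (((0 + 1 : ℕ) : ℂ) + 1) *
        ((n : ℂ) ^ (-((((0 + 1 : ℕ) : ℂ) + 1) * (1 + w))) -
        (n : ℂ) ^ (-(((0 + 1 : ℕ) : ℂ) + 1)) * (n : ℂ) ^ (1 - (1 + (w : ℂ))))‖ ≤
        2 * K * ((n : ℝ) ^ (-(1 + w.re)) - (n : ℝ) ^ (-(1 + (w.re + ‖w‖)))) := by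
      have e1 : (n : ℂ) ^ (-((((0 + 1 : ℕ) : ℂ) + 1) * (1 + w))) -
          (n : ℂ) ^ (-(((0 + 1 : ℕ) : ℂ) + 1)) * (n : ℂ) ^ (1 - (1 + (w : ℂ))) =
          (n : ℂ) ^ (-(2 + w)) * ((n : ℂ) ^ (-w) - 1) := by
        rw [mul_sub, mul_one, ← Complex.cpow_add _ _ hnc, ← Complex.cpow_add _ _ hnc]
        congr 2
        · push_cast; ring
        · push_cast; ring
      have e2 : ‖(((0 + 1 : ℕ) : ℂ) + 1)‖ = 2 := by
        have : (((0 + 1 : ℕ) : ℂ) + 1) = 2 := by push_cast; norm_num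
        rw [this]; simp
      rw [e1, norm_mul, norm_div, e2, Complex.norm_real, Real.norm_eq_abs, norm_mul,
        Complex.norm_natCast_cpow_of_pos hnpos]
      have h3 := hc n hp (0 + 1 + 1) (by omega)
      have e3 : (n : ℝ) ^ (((0 + 1 + 1 : ℕ) : ℝ) / 2) = n := by
        norm_num
      rw [e3] at h3
      have h4 := Pool.Agent.H814R3.BSD.TDD.norm_cpow_sub_one_le hnp hw.le
      have e4 : (n : ℝ) * (n : ℝ) ^ (-(2 + w)).re = (n : ℝ) ^ (-(1 + w.re)) := by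
        nth_rewrite 1 [← Real.rpow_one (n : ℝ)]
        rw [← Real.rpow_add hn0]; congr 1; simp; ring
      have e5 : (n : ℝ) ^ (-(1 + (w.re + ‖w‖))) = (n : ℝ) ^ (-(1 + w.re)) * (n : ℝ) ^ (-‖w‖) := by
        rw [← Real.rpow_add hn0]; congr 1; ring
      have h5 : 0 ≤ (n : ℝ) ^ (-(2 + w)).re := by positivity
      calc |c n (0 + 1 + 1)| / 2 * ((n : ℝ) ^ (-(2 + w)).re * ‖(n : ℂ) ^ (-w) - 1‖)
          ≤ (K * n) / 2 * ((n : ℝ) ^ (-(2 + w)).re * (4 * (1 - (n : ℝ) ^ (-‖w‖)))) := by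
            gcongr
        _ = 2 * K * ((n * (n : ℝ) ^ (-(2 + w)).re) * (1 - (n : ℝ) ^ (-‖w‖))) := by ring
        _ = _ := by rw [e4, e5]; ring
    -- the tail
    have htail : ∀ m : ℕ, ‖(c n (m + 1 + 1 + 1) : ℂ) / (((m + 1 + 1 : ℕ) : ℂ) + 1) *
        ((n : ℂ) ^ (-((((m + 1 + 1 : ℕ) : ℂ) + 1) * (1 + w))) -
        (n : ℂ) ^ (-(((m + 1 + 1 : ℕ) : ℂ) + 1)) * (n : ℂ) ^ (1 - (1 + (w : ℂ))))‖ ≤
        K * (n : ℝ) ^ (-(3 / 2) : ℝ) * ((n : ℝ) ^ (-(1 / 2) : ℝ)) ^ m := by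
      intro m
      refine (GenN.norm_term2 hgood hK hc hp (m + 1) (1 + w) hre).trans ?_
      have h6 : (n : ℝ) ^ (-(1 + w).re) * (n : ℝ) ^ (-(1 / 2) : ℝ) ≤ (n : ℝ) ^ (-(3 / 2) : ℝ) := by
        rw [← Real.rpow_add hn0]
        apply Real.rpow_le_rpow_of_exponent_le hn1
        linarith
      have h7 : 0 ≤ ((n : ℝ) ^ (-(1 / 2) : ℝ)) ^ m := by positivity
      calc K * (n : ℝ) ^ (-(1 + w).re) * ((n : ℝ) ^ (-(1 / 2) : ℝ)) ^ (m + 1)
          = K * ((n : ℝ) ^ (-(1 + w).re) * (n : ℝ) ^ (-(1 / 2) : ℝ)) *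
              ((n : ℝ) ^ (-(1 / 2) : ℝ)) ^ m := by rw [pow_succ]; ring
        _ ≤ _ := by gcongr
    obtain ⟨h3, h4⟩ := GenN.geom hgood hp
    have h9 := (tsum_of_norm_bounded (h3.mul_left (K * (n : ℝ) ^ (-(3 / 2) : ℝ))) htail)
    have h10 : K * (n : ℝ) ^ (-(3 / 2) : ℝ) * (1 - (n : ℝ) ^ (-(1 / 2) : ℝ))⁻¹ ≤
        4 * K * (n : ℝ) ^ (-(3 / 2) : ℝ) := by
      have : 0 ≤ K * (n : ℝ) ^ (-(3 / 2) : ℝ) := by positivity
      nlinarith
    refine (norm_add_le _ _).trans ?_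
    have h11 := add_le_add ht0 (h9.trans h10)
    refine h11.trans ?_
    have h12 : 0 ≤ K * ((n : ℝ) ^ (-(1 + w.re)) - (n : ℝ) ^ (-(1 + (w.re + ‖w‖)))) :=
      mul_nonneg hK hnn
    nlinarith
  · unfold GenN.dd GenN.LLc GenN.ellc
    rw [if_neg hp, if_neg hp]
    simp only [Complex.ofReal_zero, zero_mul, add_zero, norm_zero]
    positivity

lemma cbC : CB (GenN.LLc good c) (GenN.ellc good c) (4 * K)
    (fun n => 4 * K * ((n : ℝ) ^ (-(3 / 2) : ℝ) + if good n ∧ ¬ n.Prime then (1 : ℝ) / n else 0)) := by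
  intro n w hn hw
  beta_reduce
  by_cases hpr : n.Prime
  · rw [if_pos hpr]
    refine (ddcomplex hgood hK hc n hpr w hw).trans ?_
    have h1 : (if good n ∧ ¬ n.Prime then (1 : ℝ) / n else 0) = 0 := if_neg (fun h => h.2 hpr)
    rw [h1]
    exact le_of_eq (by ring)
  · rw [if_neg hpr]
    by_cases hp : good n
    · have h1 : (if good n ∧ ¬ n.Prime then (1 : ℝ) / n else 0) = 1 / n := if_pos ⟨hp, hpr⟩
      rw [h1]
      have hre : 1 ≤ ((1 : ℂ) + w).re := by simp; linarith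
      refine (GenN.ddle hgood hK hc n (1 + w) hn hre).trans ?_
      have hn1 : (1 : ℝ) ≤ n := by exact_mod_cast (by omega : 1 ≤ n)
      have e : (-((1 : ℂ) + w).re) = -(1 + w.re) := by simp
      have h2 : (n : ℝ) ^ (-((1 : ℂ) + w).re) ≤ 1 / n := by
        rw [e, one_div, ← Real.rpow_neg_one]
        exact Real.rpow_le_rpow_of_exponent_le hn1 (by linarith)
      have h3 : 0 ≤ (n : ℝ) ^ (-(3 / 2) : ℝ) := by positivity
      have h4 : 4 * K * (n : ℝ) ^ (-((1 : ℂ) + w).re) ≤ 4 * K * (1 / n) :=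
        mul_le_mul_of_nonneg_left h2 (by positivity)
      have h5 : 0 ≤ 4 * K * (n : ℝ) ^ (-(3 / 2) : ℝ) := by positivity
      linarith
    · unfold GenN.dd GenN.LLc GenN.ellc
      rw [if_neg hp, if_neg hp]
      simp only [Complex.ofReal_zero, zero_mul, add_zero, norm_zero]
      positivity

end

open Classical in
lemma cbNF {K : Type} [Field K] [NumberField K] (a b : NumberField.RingOfIntegers K) :
    CB (GenN.LLc (NF.good a b) (NF.cc a b)) (GenN.ellc (NF.good a b) (NF.cc a b))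
      (4 * (2 * Module.finrank ℚ K))
      (fun n => 4 * (2 * Module.finrank ℚ K) * ((n : ℝ) ^ (-(3 / 2) : ℝ) +
        if NF.good a b n ∧ ¬ n.Prime then (1 : ℝ) / n else 0)) :=
  cbC (fun _ h => NF.good_two a b h) (by positivity) (fun _ h m _ => NF.cc_le a b h m)

end Pool.Agent.H820R3.BSDN
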