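import Pool.Agent.H820R3.BSDN.G3
import Pool.Agent.H820R3.BSDN.G4
import Pool.Agent.H814R3.BSD.BCx
import Pool.Agent.H814R3.BSD.T_Avg2
import Pool.Agent.H814R3.BSD.T_Inv
import Pool.Agent.H814R3.BSD.T_Kap
import Pool.Agent.H814R3.BSD.T_Log
import Pool.Agent.H814R3.BSD.T_Perron
import Pool.Agent.H814R3.BSD.T_Pois
import Pool.Agent.H814R3.BSD.T_Shift
import Pool.Agent.H814R3.BSD.T_Z
import Pool.Agent.H814R3.BSD.T_Z0

/-! Averaged products of Birch and Swinnerton-Dyer: the equivalences, for local data indexed by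
norms and for elliptic curves over number fields. -/

set_option autoImplicit false

open Complex Filter Topology Finset

namespace Pool.Agent.H820R3.BSDN

open Pool.Agent.H438R3.BSD Pool.Agent.H814R3.BSD

variable {LL : ℕ → ℂ → ℂ} {ell : ℕ → ℝ} {A : ℝ} {u : ℕ → ℝ}

lemma bdd_of_ev (f : ℕ → ℝ) (M : ℝ) (h : ∀ᶠ n in atTop, |f n| ≤ M) : ∃ C : ℝ, 0 ≤ C ∧ ∀ n, |f n| ≤ C := by
  obtain ⟨N, hN⟩ := eventually_atTop.1 h
  have h0 : 0 ≤ ∑ i ∈ Finset.range N, |f i| := Finset.sum_nonneg fun i _ => abs_nonneg _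
  refine ⟨|M| + ∑ i ∈ Finset.range N, |f i|, by positivity, fun n => ?_⟩
  rcases Nat.lt_or_ge n N with hn | hn
  · have h1 := Finset.single_le_sum (f := fun i => |f i|) (fun i _ => abs_nonneg _)
      (Finset.mem_range.2 hn)
    have h2 := abs_nonneg M
    linarith
  · have h1 := hN n hn
    have h2 := le_abs_self M
    linarith

/-- the logarithmic averages of `log log n` -/
noncomputable def WW (n : ℕ) : ℝ := (∑ j ∈ Finset.Icc 2 n, Real.log (Real.log j) / j) / Real.log n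

lemma WW_ge (n : ℕ) : -1 ≤ WW n := by
  have hsumle : ∀ x : ℕ, 1 ≤ x → ∑ n ∈ Finset.Icc 2 x, (1 : ℝ) / n ≤ Real.log x := by
    intro x hx
    induction x, hx using Nat.le_induction with
    | base => simp
    | succ n hn ih =>
      rw [Finset.sum_Icc_succ_top (by omega)]
      have hn0 : (0 : ℝ) < (n : ℝ) := by exact_mod_cast hn
      have h1 : 1 / ((n + 1 : ℕ) : ℝ) ≤ Real.log ((n + 1 : ℕ) : ℝ) - Real.log n := by
        have h2 := Real.one_sub_inv_le_log_of_pos (x := ((n + 1 : ℕ) : ℝ) / n) (by positivity)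
        rw [Real.log_div (by positivity) hn0.ne'] at h2
        have e : 1 - (((n + 1 : ℕ) : ℝ) / n)⁻¹ = 1 / ((n + 1 : ℕ) : ℝ) := by
          push_cast
          field_simp
          ring
        linarith
      linarith
  unfold WW
  rcases Nat.lt_or_ge n 2 with hn | hn
  · have : Finset.Icc 2 n = ∅ := Finset.Icc_eq_empty (by omega)
    rw [this]
    simp
  · have hl : 0 < Real.log n := Real.log_pos (by exact_mod_cast (by omega : 1 < n))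
    rw [le_div_iff₀ hl]
    have h1 := hsumle n (by omega)
    have h2 : ∑ j ∈ Finset.Icc 2 n, -(1 : ℝ) / j ≤ ∑ j ∈ Finset.Icc 2 n, Real.log (Real.log j) / j := by
      refine Finset.sum_le_sum fun j hj => ?_
      have hj2 : 2 ≤ j := (Finset.mem_Icc.1 hj).1
      have hj0 : (0 : ℝ) < j := by exact_mod_cast (by omega : 0 < j)
      apply div_le_div_of_nonneg_right _ hj0.le
      have h3 : (1 : ℝ) / 2 ≤ Real.log j := by
        have h4 := Real.log_two_gt_d9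
        have h5 : Real.log 2 ≤ Real.log j := Real.log_le_log (by norm_num) (by exact_mod_cast hj2)
        linarith
      have h6 : Real.log (1 / 2) ≤ Real.log (Real.log j) := Real.log_le_log (by norm_num) h3
      have h7 : Real.log (1 / 2) = -Real.log 2 := by
        rw [one_div, Real.log_inv]
      have h8 := Real.log_two_lt_d9
      linarith
    have h3 : ∑ j ∈ Finset.Icc 2 n, -(1 : ℝ) / j = -∑ j ∈ Finset.Icc 2 n, (1 : ℝ) / j := by
      rw [← Finset.sum_neg_distrib]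
      refine Finset.sum_congr rfl fun j _ => ?_
      ring
    rw [h3] at h2
    linarith

lemma LA_change (f : ℕ → ℝ) (κ m : ℝ) (n : ℕ) :
    GenN.LA f κ n = GenN.LA f m n - (κ - m) * WW n := by
  unfold GenN.LA WW
  rw [← mul_div_assoc, ← sub_div, Finset.mul_sum, ← Finset.sum_sub_distrib]
  congr 1
  refine Finset.sum_congr rfl fun j _ => ?_
  ring

/-- The equivalences for local data indexed by norms. -/
theorem iff_gen (hloc : GenN.Loc LL ell A u) (hcb : CB LL ell A u) {F : ℂ → ℂ}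
    (hFd : Differentiable ℂ F)
    (hprod : ∀ s : ℂ, 3 / 2 < s.re → HasProd (fun p : ℕ => exp (LL p s)) (F s))
    (hgr : ∃ C K : ℝ, ∀ s : ℂ, 1 ≤ s.re → ‖F s‖ ≤ C * (1 + ‖s‖) ^ K) :
    ∃ m : ℕ, analyticOrderAt F 1 = m ∧ ∀ κ : ℝ,
      ((∃ C : ℝ, ∀ n : ℕ, GenN.LA (GenN.lE ell) κ n ≤ C) ↔
        (∀ s : ℂ, 1 < s.re → F s ≠ 0) ∧ (m : ℝ) ≤ κ) ∧
      ((∃ C : ℝ, ∀ n : ℕ, |GenN.LA (GenN.lE ell) κ n| ≤ C) ↔
        (∀ s : ℂ, 1 < s.re → F s ≠ 0) ∧ κ = m) ∧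
      ((∀ σ : ℝ, 1 < σ → F σ ≠ 0) → ((∃ C : ℝ, ∀ n : ℕ, C ≤ GenN.LA (GenN.lE ell) κ n) ↔
        (∀ s : ℂ, 1 < s.re → F s ≠ 0) ∧ κ ≤ m)) := by
  obtain ⟨m, hm, hM1, hM2⟩ := GenN.main hloc hFd hprod (GenN.lE ell) 0 (fun n => by simp)
  obtain ⟨g, hga, hg1, hfac⟩ := (hFd.analyticAt 1).analyticOrderAt_eq_natCast.1 hm
  have hfac' : ∀ᶠ z in 𝓝 (1 : ℂ), F z = (z - 1) ^ m * g z := by
    filter_upwards [hfac] with z hz
    rw [hz, smul_eq_mul]
  have hbd : (∀ s : ℂ, 1 < s.re → F s ≠ 0) → ∃ C : ℝ, 0 ≤ C ∧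
      ∀ n, |GenN.LA (GenN.lE ell) m n| ≤ C := by
    intro hRH
    obtain ⟨M, hM⟩ := avg_bounded TKap.kap_ok
      (TPerron.perron_ok TKap.kap_ok (TInv.inv_ok TKap.kap_ok) TShift.shift_ok) BCx.bc_ok
      TPois.pois_ok log_ok taskZ TZ0.Z0_ok taskAvg2 hloc hcb hFd hprod hgr hRH m g hga hg1 hfac'
    exact bdd_of_ev _ M hM
  refine ⟨m, hm, fun κ => ⟨⟨?_, ?_⟩, ⟨?_, ?_⟩, fun hreal => ⟨?_, ?_⟩⟩⟩
  · rintro ⟨C, hC⟩
    have h1 : ¬ (κ < m ∨ ∃ ρ : ℂ, 1 < ρ.re ∧ F ρ = 0) := by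
      intro h
      obtain ⟨n, hn⟩ := (hM1 κ h C).1.exists
      exact absurd (hC n) (not_le.2 hn)
    push Not at h1
    exact ⟨fun s hs => h1.2 s hs, h1.1⟩
  · rintro ⟨hRH, hκ⟩
    obtain ⟨C, hC0, hC⟩ := hbd hRH
    refine ⟨C + (κ - m), fun n => ?_⟩
    rw [LA_change _ κ m n]
    have h1 := (abs_le.1 (hC n)).2
    have h2 := WW_ge n
    nlinarith
  · rintro ⟨C, hC⟩
    have h1 : ¬ (κ < m ∨ ∃ ρ : ℂ, 1 < ρ.re ∧ F ρ = 0) := by
      intro h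
      obtain ⟨n, hn⟩ := (hM1 κ h C).1.exists
      exact absurd ((le_abs_self _).trans (hC n)) (not_le.2 hn)
    push Not at h1
    refine ⟨fun s hs => h1.2 s hs, le_antisymm ?_ h1.1⟩
    by_contra hcon
    push Not at hcon
    obtain ⟨n, hn⟩ := (hM2 (fun σ hσ => h1.2 σ (by simpa using hσ)) κ (Or.inl hcon) (-C)).1.exists
    have h2 := (abs_le.1 (hC n)).1
    linarith
  · rintro ⟨hRH, hκ⟩
    obtain ⟨C, hC0, hC⟩ := hbd hRH
    rw [hκ]
    exact ⟨C, hC⟩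
  · rintro ⟨C, hC⟩
    have h1 : ¬ ((m : ℝ) < κ ∨ ∃ ρ : ℂ, 1 < ρ.re ∧ F ρ = 0) := by
      intro h
      obtain ⟨n, hn⟩ := (hM2 hreal κ h C).1.exists
      exact absurd (hC n) (not_le.2 hn)
    push Not at h1
    exact ⟨fun s hs => h1.2 s hs, h1.1⟩
  · rintro ⟨hRH, hκ⟩
    obtain ⟨C, hC0, hC⟩ := hbd hRH
    refine ⟨-C - (m - κ), fun n => ?_⟩
    rw [LA_change _ κ m n]
    have h1 := (abs_le.1 (hC n)).1
    have h2 := WW_ge n
    nlinarith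

open Classical in
/-- Elliptic curves over number fields. -/
theorem iff_NF {K : Type} [Field K] [NumberField K] (a b : NumberField.RingOfIntegers K)
    {F : ℂ → ℂ} (hF : NF.IsL a b F)
    (hgr : ∃ C N : ℝ, ∀ s : ℂ, 1 ≤ s.re → ‖F s‖ ≤ C * (1 + ‖s‖) ^ N) :
    ∃ m : ℕ, analyticOrderAt F 1 = m ∧ ∀ κ : ℝ,
      ((∃ C : ℝ, ∀ n : ℕ, NF.LA a b κ n ≤ C) ↔
        (∀ s : ℂ, 1 < s.re → F s ≠ 0) ∧ (m : ℝ) ≤ κ) ∧
      ((∃ C : ℝ, ∀ n : ℕ, |NF.LA a b κ n| ≤ C) ↔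
        (∀ s : ℂ, 1 < s.re → F s ≠ 0) ∧ κ = m) ∧
      ((∀ σ : ℝ, 1 < σ → F σ ≠ 0) → ((∃ C : ℝ, ∀ n : ℕ, C ≤ NF.LA a b κ n) ↔
        (∀ s : ℂ, 1 < s.re → F s ≠ 0) ∧ κ ≤ m)) := by
  have hLA : ∀ κ x, NF.LA a b κ x =
      GenN.LA (GenN.lE (GenN.ellc (NF.good a b) (NF.cc a b))) κ x := by
    intro κ x
    unfold NF.LA GenN.LA
    simp_rw [NF.log_EP]
  simp_rw [hLA]
  exact iff_gen (NF.locNF a b) (cbNF a b) hF.1
    (fun s hs => NF.prodNF a b (by linarith : 1 ≤ s.re) (hF.2 s hs)) hgr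

end Pool.Agent.H820R3.BSDN
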