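import Pool.Agent.H438R3.BSD.GenN2
import Pool.Agent.H814R3.BSD.Asm
import Pool.Agent.H814R3.BSD.T_DD

/-! Products of Birch and Swinnerton-Dyer for local data indexed by norms: the coefficients, the
logarithm, the continuation of their Dirichlet series (after helper814's `Asm.lean`). -/

set_option autoImplicit false

open Complex Filter Topology Finset MeasureTheory

namespace Pool.Agent.H820R3.BSDN

open Pool.Agent.H438R3.BSD Pool.Agent.H814R3.BSD

variable {LL : ℕ → ℂ → ℂ} {ell : ℕ → ℝ} {A : ℝ} {u : ℕ → ℝ}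

/-- the complex form of the bound for the local errors -/
def CB (LL : ℕ → ℂ → ℂ) (ell : ℕ → ℝ) (A : ℝ) (u : ℕ → ℝ) : Prop :=
  ∀ (n : ℕ) (w : ℂ), 2 ≤ n → 0 < w.re → ‖GenN.dd LL ell n (1 + w)‖ ≤
    A * (if n.Prime then (n : ℝ) ^ (-(1 + w.re)) - (n : ℝ) ^ (-(1 + (w.re + ‖w‖))) else 0) + u n

/-- the sum of the local errors -/
noncomputable def DDn (LL : ℕ → ℂ → ℂ) (ell : ℕ → ℝ) (w : ℂ) : ℂ := ∑' p, GenN.dd LL ell p (1 + w)

lemma DDn_le (h : GenN.Loc LL ell A u) (hc : CB LL ell A u) : ∃ C : ℝ, ∀ w : ℂ, 0 < w.re →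
    ‖DDn LL ell w‖ ≤ C * (1 + Real.log (1 + ‖w‖ / w.re)) := by
  obtain ⟨C, hC0, hC⟩ := TDD.lam_diff
  set K : ℝ := ∑' n, u n with hK
  have hK0 : 0 ≤ K := tsum_nonneg h.upos
  have hA := h.pos
  refine ⟨A + A * C + K, ?_⟩
  intro w hw
  have hr := norm_nonneg w
  have hs1 := lam_hasSum hw
  have hs2 := lam_hasSum (w := w.re + ‖w‖) (by linarith)
  have hs4 := ((hs1.sub hs2).mul_left A).add h.usum.hasSum
  have hb : ‖DDn LL ell w‖ ≤ A * (Pool.Agent.H341R2.lam w.re -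
      Pool.Agent.H341R2.lam (w.re + ‖w‖)) + K := by
    unfold DDn
    refine tsum_of_norm_bounded hs4 (fun p => ?_)
    rcases (Nat.lt_or_ge p 2).symm with hp | hp
    · refine (hc p w hp hw).trans (le_of_eq ?_)
      congr 2
      split_ifs <;> simp
    · have hnp : ¬ p.Prime := fun h => by have := h.two_le; omega
      rw [GenN.dd_zero h hp, norm_zero, if_neg hnp, if_neg hnp]
      have := h.upos p
      linarith
  have h1 := hC w.re ‖w‖ hw hr
  have hlog : 0 ≤ Real.log (1 + ‖w‖ / w.re) := Real.log_nonneg (by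
    have : 0 ≤ ‖w‖ / w.re := by positivity
    linarith)
  have h2 := mul_le_mul_of_nonneg_left h1 hA
  nlinarith [mul_nonneg hC0 hlog, mul_nonneg hK0 hlog, mul_nonneg (mul_nonneg hA hC0) hlog]

lemma DDn_diff (h : GenN.Loc LL ell A u) : DifferentiableOn ℂ (DDn LL ell) {w | 0 < w.re} := by
  have h1 := GenN.DD_differentiable h
  have h2 : DifferentiableOn ℂ (fun w : ℂ => 1 + w) {w | 0 < w.re} := by fun_prop
  exact h1.comp h2 (fun w (hw : 0 < w.re) => by
    show 1 < (1 + w).re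
    simp only [add_re, one_re]
    linarith)

lemma DDn_bound (h : GenN.Loc LL ell A u) (σ : ℝ) (hσ : 0 < σ) :
    ∃ B : ℝ, 0 ≤ B ∧ ∀ w : ℂ, σ ≤ w.re → ‖DDn LL ell w‖ ≤ B := by
  have hA := h.pos
  have hs := (Real.summable_nat_rpow.2 (by linarith : -(1 + σ) < -1)).mul_left A
  refine ⟨∑' p : ℕ, A * (p : ℝ) ^ (-(1 + σ)), tsum_nonneg fun p => by positivity, fun w hw => ?_⟩
  refine tsum_of_norm_bounded hs.hasSum (fun p => ?_)
  refine (GenN.dd_le h p (1 + w) (by simp; linarith)).trans ?_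
  refine mul_le_mul_of_nonneg_left ?_ hA
  rcases Nat.eq_zero_or_pos p with h | h
  · subst h
    simp only [Nat.cast_zero, add_re, one_re]
    rw [Real.zero_rpow (by linarith), Real.zero_rpow (by linarith)]
  · exact Real.rpow_le_rpow_of_exponent_le (by exact_mod_cast h) (by simp; linarith)

/-- the coefficients -/
noncomputable def cfn (ell : ℕ → ℝ) (m : ℕ) (n : ℕ) : ℝ := ell n - m * zz n

lemma cfn_zero (h : GenN.Loc LL ell A u) (m : ℕ) : cfn ell m 0 = 0 := by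
  simp [cfn, h.zeroE 0 (by norm_num), zz_zero]

lemma cfn_le (h : GenN.Loc LL ell A u) (m : ℕ) (n : ℕ) (hn : 1 ≤ n) :
    |cfn ell m n| ≤ (A + 2 * m) * (n : ℝ) ^ (-(1 / 2) : ℝ) := by
  unfold cfn
  have h1 := h.ell_le n hn
  have h2 := zz_le n hn
  have h3 := zz_nonneg n
  have h4 : |(m : ℝ) * zz n| ≤ m * (2 * (n : ℝ) ^ (-(1 / 2) : ℝ)) := by
    rw [abs_mul, abs_of_nonneg h3, abs_of_nonneg (by positivity : (0 : ℝ) ≤ m)]
    exact mul_le_mul_of_nonneg_left h2 (by positivity)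
  calc |ell n - m * zz n| ≤ |ell n| + |(m : ℝ) * zz n| := abs_sub _ _
    _ ≤ _ := by linarith

lemma cfn_summable (h : GenN.Loc LL ell A u) (m : ℕ) : Summable (fun n : ℕ => |cfn ell m n| / n) := by
  have hA := h.pos
  refine Summable.of_nonneg_of_le (fun n => by positivity) (fun n => ?_)
    ((Real.summable_nat_rpow.2 (by norm_num : (-(3 / 2) : ℝ) < -1)).mul_left (A + 2 * (m : ℝ)))
  rcases Nat.eq_zero_or_pos n with h0 | h0
  · subst h0
    simp only [Nat.cast_zero, div_zero]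
    positivity
  · have hn0 : (0 : ℝ) < n := by exact_mod_cast h0
    have h1 := cfn_le h m n h0
    rw [div_le_iff₀ hn0]
    refine h1.trans (le_of_eq ?_)
    rw [mul_assoc]
    congr 1
    have : (n : ℝ) ^ (-(3 / 2) : ℝ) * n = (n : ℝ) ^ (-(3 / 2) : ℝ) * (n : ℝ) ^ (1 : ℝ) := by
      rw [Real.rpow_one]
    rw [this, ← Real.rpow_add hn0]
    norm_num

lemma sum_cfn (m : ℕ) (j : ℕ) : ∑ k ∈ Finset.Icc 1 j, cfn ell m k =
    GenN.lE ell j - m * ∑ k ∈ Finset.Icc 1 j, zz k := by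
  unfold cfn GenN.lE
  rw [Finset.sum_sub_distrib, ← Finset.mul_sum]

/-- the continuation of the Dirichlet series of `cfn` -/
noncomputable def HHn (LL : ℕ → ℂ → ℂ) (ell : ℕ → ℝ) (m : ℕ) (L : ℂ → ℂ) (w : ℂ) : ℂ :=
  DDn LL ell w - L w - m * ZZ w

lemma HHn_series (hZ : TaskZ) (h : GenN.Loc LL ell A u) (m : ℕ) (L : ℂ → ℂ)
    (hL : ∀ w : ℂ, 1 / 2 < w.re → HasSum (fun p : ℕ => LL p (1 + w)) (L w))
    (w : ℂ) (hw : 1 ≤ w.re) : HHn LL ell m L w = LSeries (fun n => (cfn ell m n : ℂ)) w := by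
  have h1 : HasSum (fun p => GenN.dd LL ell p (1 + w)) (DDn LL ell w) :=
    (GenN.dd_summable h (s := 1 + w) (by simp; linarith)).hasSum
  have h2 := hL w (by linarith)
  have h3 : HasSum (LSeries.term (fun n => (zz n : ℂ)) w) (ZZ w) := (hZ.2.1 w (by linarith)).hasSum
  have h4 := (h1.sub h2).sub (h3.mul_left (m : ℂ))
  unfold HHn LSeries
  rw [← h4.tsum_eq]
  congr 1
  funext n
  rcases Nat.eq_zero_or_pos n with h0 | h0
  · subst h0
    rw [GenN.dd_zero h (by norm_num), h.zeroL 0 _ (by norm_num)]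
    simp
  · rw [LSeries.term_of_ne_zero (by omega), LSeries.term_of_ne_zero (by omega)]
    unfold cfn GenN.dd
    have e : (1 : ℂ) - (1 + w) = -w := by ring
    rw [e, Complex.cpow_neg]
    push_cast
    ring

lemma HHn_diff (hZ : TaskZ) (h : GenN.Loc LL ell A u) (m : ℕ) (L : ℂ → ℂ)
    (hL : DifferentiableOn ℂ L {w | 0 < w.re}) :
    DifferentiableOn ℂ (HHn LL ell m L) {w | 0 < w.re} :=
  ((DDn_diff h).sub hL).sub (hZ.1.const_mul _)

lemma HHn_bound (hZ : TaskZ) (h : GenN.Loc LL ell A u) (m : ℕ) (L : ℂ → ℂ)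
    (hL : ∀ σ : ℝ, 0 < σ → ∃ B : ℝ, ∀ w : ℂ, σ ≤ w.re → ‖L w‖ ≤ B * (1 + |w.im|) ^ (1 / 2 : ℝ))
    (σ : ℝ) (hσ : 0 < σ) : ∃ B : ℝ, ∀ w : ℂ, σ ≤ w.re → w.re ≤ 1 →
      ‖HHn LL ell m L w‖ ≤ B * (1 + |w.im|) ^ (1 / 2 : ℝ) := by
  obtain ⟨B1, hB1, h1⟩ := DDn_bound h σ hσ
  obtain ⟨B2, h2⟩ := hL σ hσ
  obtain ⟨C, h3⟩ := hZ.2.2
  refine ⟨B1 + B2 + m * (|C| * (1 + |Real.log σ|)), fun w hw1 hw2 => ?_⟩
  have hr := one_le_rp w.im
  set r := (1 + |w.im|) ^ (1 / 2 : ℝ) with hrdef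
  have hw0 : 0 < w.re := by linarith
  have hz : ‖ZZ w‖ ≤ |C| * (1 + |Real.log σ|) := by
    refine (h3 w hw0).trans ?_
    have hl : |Real.log w.re| ≤ |Real.log σ| := by
      have h4 : Real.log w.re ≤ 0 := Real.log_nonpos hw0.le hw2
      have h5 : Real.log σ ≤ Real.log w.re := Real.log_le_log hσ hw1
      rw [abs_of_nonpos h4, abs_of_nonpos (h5.trans h4)]
      linarith
    calc C * (1 + |Real.log w.re|) ≤ |C| * (1 + |Real.log w.re|) :=
          mul_le_mul_of_nonneg_right (le_abs_self _) (by positivity)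
      _ ≤ _ := mul_le_mul_of_nonneg_left (by linarith) (abs_nonneg _)
  have hc : 0 ≤ m * (|C| * (1 + |Real.log σ|)) := by positivity
  calc ‖HHn LL ell m L w‖ ≤ ‖DDn LL ell w‖ + ‖L w‖ + ‖(m : ℂ) * ZZ w‖ := by
        unfold HHn
        exact (norm_sub_le _ _).trans (add_le_add_left (norm_sub_le _ _) _)
    _ ≤ B1 + B2 * r + m * (|C| * (1 + |Real.log σ|)) := by
        rw [norm_mul, Complex.norm_natCast]
        have := mul_le_mul_of_nonneg_left hz (by positivity : (0 : ℝ) ≤ m)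
        linarith [h1 w hw1, h2 w hw1]
    _ ≤ B1 * r + B2 * r + (m * (|C| * (1 + |Real.log σ|))) * r := by
        nlinarith
    _ = _ := by ring

lemma LL_le (h : GenN.Loc LL ell A u) (n : ℕ) (s : ℂ) (hs : 1 ≤ s.re) :
    ‖LL n s‖ ≤ 2 * A * (n : ℝ) ^ (1 / 2 - s.re) := by
  have hA := h.pos
  rcases Nat.eq_zero_or_pos n with h0 | h0
  · rw [h.zeroL n s (by omega), norm_zero]; positivity
  · have hn0 : (0 : ℝ) < n := by exact_mod_cast h0
    have hn1 : (1 : ℝ) ≤ n := by exact_mod_cast h0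
    have e : LL n s = GenN.dd LL ell n s - (ell n : ℂ) * (n : ℂ) ^ (1 - s) := by
      unfold GenN.dd; ring
    rw [e]
    have h1 := GenN.dd_le h n s hs
    have h2 : (n : ℝ) ^ (-s.re) ≤ (n : ℝ) ^ (1 / 2 - s.re) :=
      Real.rpow_le_rpow_of_exponent_le hn1 (by linarith)
    have h3 : ‖(ell n : ℂ) * (n : ℂ) ^ (1 - s)‖ ≤ A * (n : ℝ) ^ (1 / 2 - s.re) := by
      rw [norm_mul, Complex.norm_real, Real.norm_eq_abs, Complex.norm_natCast_cpow_of_pos h0]
      have h4 := h.ell_le n h0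
      calc |ell n| * (n : ℝ) ^ (1 - s).re ≤
          (A * (n : ℝ) ^ (-(1 / 2) : ℝ)) * (n : ℝ) ^ (1 - s).re :=
            mul_le_mul_of_nonneg_right h4 (by positivity)
        _ = A * ((n : ℝ) ^ (-(1 / 2) : ℝ) * (n : ℝ) ^ (1 - s).re) := by ring
        _ = A * (n : ℝ) ^ (1 / 2 - s.re) := by
            rw [← Real.rpow_add hn0]; congr 2; simp; ring
    refine (norm_sub_le _ _).trans ?_
    have h5 := mul_le_mul_of_nonneg_left h2 hA
    linarith

lemma LL_le' (h : GenN.Loc LL ell A u) {t : ℝ} (ht : 3 / 2 ≤ t) (p : ℕ) (s : ℂ) (hs : t ≤ s.re) :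
    ‖LL p s‖ ≤ 2 * A * (p : ℝ) ^ (1 / 2 - t) := by
  have hA := h.pos
  refine (LL_le h p s (by linarith)).trans ?_
  rcases Nat.eq_zero_or_pos p with h0 | h0
  · rw [h0]
    simp only [Nat.cast_zero]
    rw [Real.zero_rpow (by linarith), Real.zero_rpow (by linarith)]
  · have hp1 : (1 : ℝ) ≤ p := by exact_mod_cast h0
    refine mul_le_mul_of_nonneg_left ?_ (by positivity)
    exact Real.rpow_le_rpow_of_exponent_le hp1 (by linarith)

lemma LL_summable (h : GenN.Loc LL ell A u) {s : ℂ} (hs : 3 / 2 < s.re) :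
    Summable (fun p => LL p s) := by
  refine Summable.of_norm_bounded
    ((Real.summable_nat_rpow.2 (by linarith : 1 / 2 - s.re < -1)).mul_left (2 * A)) ?_
  exact fun p => LL_le h p s (by linarith)

lemma SS_differentiable (h : GenN.Loc LL ell A u) :
    DifferentiableOn ℂ (fun s => ∑' p, LL p s) {s | (3 : ℝ) / 2 < s.re} := by
  intro s0 hs0
  have hs0' : (3 : ℝ) / 2 < s0.re := hs0
  set t := (3 / 2 + s0.re) / 2 with ht
  have ht1 : 3 / 2 < t := by rw [ht]; linarith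
  have ht2 : t < s0.re := by rw [ht]; linarith
  have hd : DifferentiableOn ℂ (fun s => ∑' p, LL p s) {s | t < s.re} := by
    refine differentiableOn_tsum_of_summable_norm (u := fun p : ℕ => 2 * A * (p : ℝ) ^ (1 / 2 - t))
      ((Real.summable_nat_rpow.2 (by linarith : 1 / 2 - t < -1)).mul_left (2 * A)) (fun p => ?_)
      (Complex.isOpen_re_gt t) (fun p s hs => ?_)
    · exact (h.diff p).mono (fun s (hs : t < s.re) => (by show 1 < s.re; linarith))
    · have hs' : t < s.re := hs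
      exact LL_le' h ht1.le p s hs'.le
  exact (hd.differentiableAt ((Complex.isOpen_re_gt t).mem_nhds ht2)).differentiableWithinAt

theorem euler_n (hlog : TaskLog) (h : GenN.Loc LL ell A u) {F : ℂ → ℂ} (hF : Differentiable ℂ F)
    (hprod : ∀ s : ℂ, 3 / 2 < s.re → HasProd (fun p : ℕ => exp (LL p s)) (F s))
    (hne : ∀ s : ℂ, 1 < s.re → F s ≠ 0) :
    ∃ L : ℂ → ℂ, DifferentiableOn ℂ L {w | 0 < w.re} ∧
      (∀ w : ℂ, 0 < w.re → exp (L w) = F (1 + w)) ∧
      (∀ w : ℂ, 1 / 2 < w.re → HasSum (fun p : ℕ => LL p (1 + w)) (L w)) ∧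
      ∃ B0 : ℝ, ∀ w : ℂ, 1 ≤ w.re → ‖L w‖ ≤ B0 := by
  have hadd : Differentiable ℂ (fun w : ℂ => 1 + w) := by fun_prop
  have hFd : Differentiable ℂ (fun w : ℂ => F (1 + w)) := hF.comp hadd
  set S : ℂ → ℂ := fun w => ∑' p, LL p (1 + w) with hS
  have hre : ∀ w : ℂ, 1 / 2 < w.re → 3 / 2 < (1 + w).re := by
    intro w hw; simp only [add_re, one_re]; linarith
  have hSsum : ∀ w : ℂ, 1 / 2 < w.re → HasSum (fun p : ℕ => LL p (1 + w)) (S w) := by
    intro w hw
    exact (LL_summable h (hre w hw)).hasSum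
  have hopen : IsOpen {w : ℂ | (1 : ℝ) / 2 < w.re} := Complex.isOpen_re_gt _
  have hSd : DifferentiableOn ℂ S {w : ℂ | (1 : ℝ) / 2 < w.re} := by
    have h1 := SS_differentiable h
    exact h1.comp hadd.differentiableOn (fun w hw => hre w hw)
  have hSe : ∀ w : ℂ, 1 / 2 < w.re → exp (S w) = F (1 + w) := by
    intro w hw
    exact (hSsum w hw).cexp.unique (hprod (1 + w) (hre w hw))
  obtain ⟨L0, hL0, hL0e⟩ := hlog (fun w => F (1 + w)) hFd.differentiableOn (by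
    intro w hw
    apply hne
    simp only [add_re, one_re]; linarith)
  have hsub : {w : ℂ | (1 : ℝ) / 2 < w.re} ⊆ {w : ℂ | 0 < w.re} := by
    intro w hw
    have h1 : (1 : ℝ) / 2 < w.re := hw
    show 0 < w.re
    linarith
  have hD : DifferentiableOn ℂ (fun w => L0 w - S w) {w : ℂ | (1 : ℝ) / 2 < w.re} :=
    (hL0.mono hsub).sub hSd
  have hexp : ∀ w : ℂ, 1 / 2 < w.re → exp (L0 w - S w) = 1 := by
    intro w hw
    have hw0 : 0 < w.re := by linarith
    rw [Complex.exp_sub, hL0e w hw0, hSe w hw, div_self]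
    apply hne
    simp only [add_re, one_re]; linarith
  have hconv : Convex ℝ {w : ℂ | (1 : ℝ) / 2 < w.re} := convex_halfSpace_re_gt _
  have hpre : IsPreconnected {w : ℂ | (1 : ℝ) / 2 < w.re} := hconv.isPreconnected
  have hderiv : Set.EqOn (deriv (fun w => L0 w - S w)) 0 {w : ℂ | (1 : ℝ) / 2 < w.re} := by
    intro w hw
    have hd : DifferentiableAt ℂ (fun w => L0 w - S w) w := hD.differentiableAt (hopen.mem_nhds hw)
    have h1 : HasDerivAt (fun w => exp (L0 w - S w))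
        (exp (L0 w - S w) * deriv (fun w => L0 w - S w) w) w := hd.hasDerivAt.cexp
    have h2 : (fun w => exp (L0 w - S w)) =ᶠ[𝓝 w] fun _ => (1 : ℂ) := by
      filter_upwards [hopen.mem_nhds hw] with z hz
      exact hexp z hz
    have h3 : HasDerivAt (fun _ : ℂ => (1 : ℂ))
        (exp (L0 w - S w) * deriv (fun w => L0 w - S w) w) w := h1.congr_of_eventuallyEq h2.symm
    have h4 := h3.unique (hasDerivAt_const w (1 : ℂ))
    rw [hexp w hw, one_mul] at h4
    exact h4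
  obtain ⟨c, hc⟩ := hopen.exists_is_const_of_deriv_eq_zero hpre hD hderiv
  have hc1 : exp c = 1 := by
    have h1 := hexp 1 (by norm_num)
    have h2 := hc 1 (by show (1 : ℝ) / 2 < (1 : ℂ).re; norm_num)
    rw [h2] at h1
    exact h1
  have hLS : ∀ w : ℂ, 1 / 2 < w.re → L0 w - c = S w := by
    intro w hw
    have h2 := hc w hw
    rw [← h2]; ring
  refine ⟨fun w => L0 w - c, hL0.sub_const c, ?_, ?_, ?_⟩
  · intro w hw
    show exp (L0 w - c) = F (1 + w)
    rw [Complex.exp_sub, hc1, div_one, hL0e w hw]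
  · intro w hw
    show HasSum _ (L0 w - c)
    rw [hLS w hw]
    exact hSsum w hw
  · refine ⟨∑' p : ℕ, 2 * A * (p : ℝ) ^ (1 / 2 - 2 : ℝ), ?_⟩
    intro w hw
    show ‖L0 w - c‖ ≤ _
    rw [hLS w (by linarith)]
    have hs : Summable (fun p : ℕ => 2 * A * (p : ℝ) ^ (1 / 2 - 2 : ℝ)) :=
      (Real.summable_nat_rpow.2 (by norm_num)).mul_left _
    refine tsum_of_norm_bounded hs.hasSum (fun p => ?_)
    refine LL_le' h (by norm_num) p (1 + w) ?_
    simp only [add_re, one_re]; linarith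

end Pool.Agent.H820R3.BSDN
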