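import Pool.Agent.H820R3.BSDN.G7
import Pool.Agent.H438R3.BSD.Bei
import Pool.Agent.H438R3.BSD.CnvI

/-! Exact form: prime power sums at the centre for systems of Frobenius eigenvalues of odd weight
over a number field and for the odd cohomology of powers of hyperelliptic curves. -/

set_option autoImplicit false

open Complex Filter Topology Finset NumberField IsDedekindDomain

namespace Pool.Agent.H820R3.BSDN

open Pool.Agent.H438R3.BSD

lemma growth_shift {G : ℂ → ℂ} (i : ℕ)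
    (hgr : ∃ C N : ℝ, ∀ s : ℂ, (i : ℝ) + 1 ≤ s.re → ‖G s‖ ≤ C * (1 + ‖s‖) ^ N) :
    ∃ C N : ℝ, ∀ s : ℂ, 1 ≤ s.re → ‖(fun s : ℂ => G (s + i)) s‖ ≤ C * (1 + ‖s‖) ^ N := by
  obtain ⟨C, N, h⟩ := hgr
  refine ⟨|C| * ((i : ℝ) + 1) ^ |N|, |N|, fun s hs => ?_⟩
  have h1 := h (s + i) (by simp; linarith)
  have hn : 0 ≤ ‖s‖ := norm_nonneg s
  have hi : (0 : ℝ) ≤ i := Nat.cast_nonneg i
  have h2 : 1 + ‖s + i‖ ≤ ((i : ℝ) + 1) * (1 + ‖s‖) := by
    have h3 := norm_add_le s (i : ℂ)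
    rw [Complex.norm_natCast] at h3
    nlinarith
  have h3 : (1 : ℝ) ≤ 1 + ‖s + i‖ := by have := norm_nonneg (s + i); linarith
  calc ‖G (s + i)‖ ≤ C * (1 + ‖s + i‖) ^ N := h1
    _ ≤ |C| * (1 + ‖s + i‖) ^ N :=
        mul_le_mul_of_nonneg_right (le_abs_self _) (by positivity)
    _ ≤ |C| * (1 + ‖s + i‖) ^ |N| :=
        mul_le_mul_of_nonneg_left (Real.rpow_le_rpow_of_exponent_le h3 (le_abs_self _))
          (abs_nonneg _)
    _ ≤ |C| * (((i : ℝ) + 1) * (1 + ‖s‖)) ^ |N| :=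
        mul_le_mul_of_nonneg_left (Real.rpow_le_rpow (by linarith) h2 (abs_nonneg _))
          (abs_nonneg _)
    _ = |C| * ((i : ℝ) + 1) ^ |N| * (1 + ‖s‖) ^ |N| := by
        rw [Real.mul_rpow (by positivity) (by positivity)]; ring

/-- shift of the centre from `1` to `i + 1` -/
theorem equiv_shift {good : ℕ → Prop} [DecidablePred good] {c : ℕ → ℕ → ℝ} {K : ℝ}
    (hgood : ∀ p, good p → 2 ≤ p) (hK : 0 ≤ K)
    (hc : ∀ p, good p → ∀ m : ℕ, 1 ≤ m → |c p m| ≤ K * (p : ℝ) ^ ((m : ℝ) / 2))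
    (hsum : Summable (fun n : ℕ => if good n ∧ ¬ n.Prime then (1 : ℝ) / n else 0))
    (i : ℕ) {G : ℂ → ℂ} (hG : Differentiable ℂ G)
    (hprod : ∀ s : ℂ, 3 / 2 < s.re → HasProd (fun p : ℕ => exp (GenN.LLc good c p s)) (G (s + i)))
    (hgr : ∃ C N : ℝ, ∀ s : ℂ, (i : ℝ) + 1 ≤ s.re → ‖G s‖ ≤ C * (1 + ‖s‖) ^ N)
    (f g : ℕ → ℝ) (hf : ∀ n, f n = GenN.lE (GenN.ellc good c) n)
    (hg : ∀ n, g n = -∑ x ∈ GenN.GG n, GenN.tt good c x) :
    ∃ (m : ℕ) (l : ℂ), analyticOrderAt G (i + 1) = m ∧ l ≠ 0 ∧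
      Tendsto (fun s : ℂ => G s / (s - (i + 1)) ^ m) (𝓝[≠] ((i : ℂ) + 1)) (𝓝 l) ∧
      (∀ κ : ℝ, List.TFAE [
        (∀ s : ℂ, (i : ℝ) + 1 < s.re → G s ≠ 0) ∧ κ = m,
        κ ≤ m ∧ ∃ C : ℝ, ∀ n : ℕ, GenN.LA f κ n ≤ C,
        ∃ C : ℝ, ∀ n : ℕ, |GenN.LA f κ n| ≤ C,
        κ ≤ m ∧ ∃ C : ℝ, ∀ n : ℕ, GenN.LA g κ n ≤ C,
        ∃ t : ℝ, Tendsto (fun n : ℕ => GenN.LA g κ n) atTop (𝓝 t),
        Tendsto (fun n : ℕ => GenN.LA g κ n) atTop
          (𝓝 (κ * Real.eulerMascheroniConstant - Real.log ‖l‖))]) ∧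
      ∀ κ Λ : ℝ, 0 < Λ →
        (((∀ s : ℂ, (i : ℝ) + 1 < s.re → G s ≠ 0) ∧ κ = m ∧ ‖l‖ = Λ) ↔
          Tendsto (fun n : ℕ => GenN.LA g κ n) atTop
            (𝓝 (κ * Real.eulerMascheroniConstant - Real.log Λ))) := by
  obtain ⟨m, l, hm, hl, hlim, H⟩ := GenN.equiv hgood hK hc hsum (F := fun s => G (s + i))
    (hG.comp (by fun_prop)) hprod (growth_shift i hgr) f g hf hg
  have hord : analyticOrderAt G (i + 1) = m := by
    rw [← hm]
    have h3 := analyticOrderAt_comp_of_deriv_ne_zero (f := G) (g := fun s : ℂ => s + i) (z₀ := 1)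
      (by fun_prop) (by
        have : deriv (fun s : ℂ => s + i) 1 = 1 := by simp
        rw [this]; exact one_ne_zero)
    have e : ((i : ℂ) + 1) = (fun s : ℂ => s + i) 1 := by simp [add_comm]
    rw [e]
    exact h3.symm
  have hRH : (∀ s : ℂ, 1 < s.re → (fun s : ℂ => G (s + i)) s ≠ 0) ↔
      (∀ s : ℂ, (i : ℝ) + 1 < s.re → G s ≠ 0) := by
    constructor
    · intro h s hs
      have := h (s - i) (by simp; linarith)
      simpa using this
    · intro h s hs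
      exact h (s + i) (by simp; linarith)
  have hlim' : Tendsto (fun s : ℂ => G s / (s - (i + 1)) ^ m) (𝓝[≠] ((i : ℂ) + 1)) (𝓝 l) := by
    have h1 : Tendsto (fun s : ℂ => s - i) (𝓝[≠] ((i : ℂ) + 1)) (𝓝[≠] 1) := by
      apply tendsto_nhdsWithin_of_tendsto_nhds_of_eventually_within
      · have : ContinuousAt (fun s : ℂ => s - i) ((i : ℂ) + 1) := by fun_prop
        have h2 := this.tendsto
        have e : (i : ℂ) + 1 - i = 1 := by ring
        rw [e] at h2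
        exact h2.mono_left nhdsWithin_le_nhds
      · filter_upwards [self_mem_nhdsWithin] with s hs
        intro h3
        apply hs
        have h4 : s - i = 1 := h3
        show s = (i : ℂ) + 1
        rw [← h4]; ring
    have h2 := hlim.comp h1
    refine h2.congr fun s => ?_
    show G (s - i + i) / (s - i - 1) ^ m = _
    congr 2
    · ring
    · ring
  have H' : ∀ κ : ℝ, List.TFAE [
        (∀ s : ℂ, (i : ℝ) + 1 < s.re → G s ≠ 0) ∧ κ = m,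
        κ ≤ m ∧ ∃ C : ℝ, ∀ n : ℕ, GenN.LA f κ n ≤ C,
        ∃ C : ℝ, ∀ n : ℕ, |GenN.LA f κ n| ≤ C,
        κ ≤ m ∧ ∃ C : ℝ, ∀ n : ℕ, GenN.LA g κ n ≤ C,
        ∃ t : ℝ, Tendsto (fun n : ℕ => GenN.LA g κ n) atTop (𝓝 t),
        Tendsto (fun n : ℕ => GenN.LA g κ n) atTop
          (𝓝 (κ * Real.eulerMascheroniConstant - Real.log ‖l‖))] := by
    intro κ
    have h1 := H κ
    rw [hRH] at h1
    exact h1
  have e5 : ∀ κ : ℝ, ((∀ s : ℂ, (i : ℝ) + 1 < s.re → G s ≠ 0) ∧ κ = m) ↔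
      Tendsto (fun n : ℕ => GenN.LA g κ n) atTop
        (𝓝 (κ * Real.eulerMascheroniConstant - Real.log ‖l‖)) := fun κ => (H' κ).out 0 5
  have e4 : ∀ κ : ℝ, ((∀ s : ℂ, (i : ℝ) + 1 < s.re → G s ≠ 0) ∧ κ = m) ↔
      ∃ t : ℝ, Tendsto (fun n : ℕ => GenN.LA g κ n) atTop (𝓝 t) := fun κ => (H' κ).out 0 4
  refine ⟨m, l, hord, hl, hlim', H', fun κ Λ hΛ => ⟨?_, fun h => ?_⟩⟩
  · rintro ⟨h1, h2, h3⟩
    have h4 := (e5 κ).1 ⟨h1, h2⟩
    rwa [h3] at h4
  · obtain ⟨h1, h2⟩ := (e4 κ).2 ⟨_, h⟩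
    refine ⟨h1, h2, ?_⟩
    have h4 := (e5 κ).1 ⟨h1, h2⟩
    have h5 := tendsto_nhds_unique h4 h
    have h6 : Real.log ‖l‖ = Real.log Λ := by linarith
    exact Real.log_injOn_pos (norm_pos_iff.2 hl) hΛ h6

end Pool.Agent.H820R3.BSDN

namespace Pool.Agent.H820R3.BSDN.Mot

open Pool.Agent.H438R3.BSD
open Pool.Agent.H438R3.BSD.NF (fib fib_card mem_fib)
open Pool.Agent.H921R2.TatePole (nm two_le_nm below deg)

variable {K : Type} [Field K] [NumberField K] {i d : ℕ}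
  {α : HeightOneSpectrum (𝓞 K) → Fin d → ℂ}

open Classical in
/-- the sum of `(∑_j α v j ^ k) / (k q_v ^ (k (i + 1)))` over the primes `v` and the `k ≥ 1` with
`q_v ^ k ≤ n` -/
noncomputable def SP (i d : ℕ) (α : HeightOneSpectrum (𝓞 K) → Fin d → ℂ) (n : ℕ) : ℝ :=
  ∑ᶠ x : HeightOneSpectrum (𝓞 K) × ℕ,
    if 1 ≤ x.2 ∧ Ideal.absNorm x.1.asIdeal ^ x.2 ≤ n then
      (∑ j, α x.1 j ^ x.2).re / (x.2 * (Ideal.absNorm x.1.asIdeal : ℝ) ^ (x.2 * (i + 1))) else 0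

/-- the logarithmic average of `-SP(n) - κ log log n` over `2 ≤ n ≤ x` -/
noncomputable def LS (i d : ℕ) (α : HeightOneSpectrum (𝓞 K) → Fin d → ℂ) (κ : ℝ) (x : ℕ) : ℝ :=
  (∑ n ∈ Finset.Icc 2 x, (-SP i d α n - κ * Real.log (Real.log n)) / n) / Real.log x

lemma be_pow_re (v : HeightOneSpectrum (𝓞 K)) (r : ℕ) :
    (∑ j, be i α v j ^ r).re = (∑ j, α v j ^ r).re / (nm v : ℝ) ^ (i * r) := by
  have e : ∑ j, be i α v j ^ r = (∑ j, α v j ^ r) / ((((nm v : ℝ) ^ (i * r) : ℝ)) : ℂ) := by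
    unfold be
    rw [Finset.sum_div]
    refine Finset.sum_congr rfl fun j _ => ?_
    rw [div_pow, ← pow_mul]
    push_cast
    rfl
  rw [e, Complex.div_ofReal_re]

open Classical in
lemma SP_eq (n : ℕ) : SP i d α n = ∑ x ∈ GenN.GG n, GenN.tt (gd K) (cc i α) x := by
  unfold SP
  have hsub : Function.support (fun x : HeightOneSpectrum (𝓞 K) × ℕ =>
      if 1 ≤ x.2 ∧ Ideal.absNorm x.1.asIdeal ^ x.2 ≤ n then
      (∑ j, α x.1 j ^ x.2).re / (x.2 * (Ideal.absNorm x.1.asIdeal : ℝ) ^ (x.2 * (i + 1))) else 0) ⊆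
      (((GenN.GG n).biUnion fun x => (fib K x.1).image fun v => (v, x.2 + 1) :
        Finset (HeightOneSpectrum (𝓞 K) × ℕ)) : Set (HeightOneSpectrum (𝓞 K) × ℕ)) := by
    intro y hy
    rw [Function.mem_support] at hy
    have h1 : 1 ≤ y.2 ∧ Ideal.absNorm y.1.asIdeal ^ y.2 ≤ n := by
      by_contra h
      exact hy (if_neg h)
    rw [Finset.mem_coe, Finset.mem_biUnion]
    have e : y.2 - 1 + 1 = y.2 := by have := h1.1; omega
    refine ⟨(nm y.1, y.2 - 1), GenN.mem_GG.2 ⟨two_le_nm y.1, ?_⟩, ?_⟩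
    · show nm y.1 ^ (y.2 - 1 + 1) ≤ n
      rw [e]
      exact h1.2
    · rw [Finset.mem_image]
      refine ⟨y.1, mem_fib.2 rfl, ?_⟩
      show (y.1, y.2 - 1 + 1) = y
      rw [e]
  rw [finsum_eq_sum_of_support_subset _ hsub, Finset.sum_biUnion]
  · refine Finset.sum_congr rfl fun x hx => ?_
    obtain ⟨q, m⟩ := x
    rw [GenN.mem_GG] at hx
    simp only at hx ⊢
    rw [Finset.sum_image (fun v _ w _ h => (Prod.mk.inj h).1)]
    simp only
    have hq0 : (0 : ℝ) < q := by exact_mod_cast (by omega : 0 < q)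
    have hrw : (q : ℝ) ^ (-((m : ℝ) + 1)) = ((q : ℝ) ^ (m + 1))⁻¹ := by
      rw [Real.rpow_neg hq0.le, ← Real.rpow_natCast]
      push_cast
      rfl
    unfold GenN.tt
    simp only
    by_cases hg : gd K q
    · rw [if_pos hg, hrw]
      unfold cc
      rw [Finset.sum_mul, Finset.sum_div]
      refine Finset.sum_congr rfl fun v hv => ?_
      have hvq : nm v = q := mem_fib.1 hv
      have hvq' : Ideal.absNorm v.asIdeal = q := hvq
      rw [be_pow_re, hvq, hvq', if_pos ⟨by omega, hx.2⟩]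
      have e3 : (q : ℝ) ^ ((m + 1) * (i + 1)) = (q : ℝ) ^ (i * (m + 1)) * (q : ℝ) ^ (m + 1) := by
        rw [← pow_add]
        congr 1
        ring
      rw [e3]
      push_cast
      field_simp
    · rw [if_neg hg]
      refine Finset.sum_eq_zero fun v hv => ?_
      exact absurd ⟨v, mem_fib.1 hv⟩ hg
  · intro x _ y _ hxy
    rw [Function.onFun, Finset.disjoint_left]
    intro z h1 h2
    rw [Finset.mem_image] at h1 h2
    obtain ⟨v, hv, e1⟩ := h1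
    obtain ⟨w, hw, e2⟩ := h2
    rw [← e2] at e1
    have h3 := (Prod.mk.inj e1).1
    have h4 := (Prod.mk.inj e1).2
    apply hxy
    have h5 : x.1 = y.1 := by
      rw [← mem_fib.1 hv, ← mem_fib.1 hw, h3]
    exact Prod.ext h5 (by omega)

theorem equivM (h : Sys i d α) {G : ℂ → ℂ} (hG : IsL i d α G)
    (hgr : ∃ C N : ℝ, ∀ s : ℂ, (i : ℝ) + 1 ≤ s.re → ‖G s‖ ≤ C * (1 + ‖s‖) ^ N) :
    ∃ (m : ℕ) (l : ℂ), analyticOrderAt G (i + 1) = m ∧ l ≠ 0 ∧
      Tendsto (fun s : ℂ => G s / (s - (i + 1)) ^ m) (𝓝[≠] ((i : ℂ) + 1)) (𝓝 l) ∧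
      (∀ κ : ℝ, List.TFAE [
        (∀ s : ℂ, (i : ℝ) + 1 < s.re → G s ≠ 0) ∧ κ = m,
        κ ≤ m ∧ ∃ C : ℝ, ∀ n : ℕ, LA i d α κ n ≤ C,
        ∃ C : ℝ, ∀ n : ℕ, |LA i d α κ n| ≤ C,
        κ ≤ m ∧ ∃ C : ℝ, ∀ n : ℕ, LS i d α κ n ≤ C,
        ∃ t : ℝ, Tendsto (fun n : ℕ => LS i d α κ n) atTop (𝓝 t),
        Tendsto (fun n : ℕ => LS i d α κ n) atTop
          (𝓝 (κ * Real.eulerMascheroniConstant - Real.log ‖l‖))]) ∧
      ∀ κ Λ : ℝ, 0 < Λ →
        (((∀ s : ℂ, (i : ℝ) + 1 < s.re → G s ≠ 0) ∧ κ = m ∧ ‖l‖ = Λ) ↔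
          Tendsto (fun n : ℕ => LS i d α κ n) atTop
            (𝓝 (κ * Real.eulerMascheroniConstant - Real.log Λ))) := by
  classical
  have hpos : (0 : ℝ) ≤ (d : ℝ) * Module.finrank ℚ K := by positivity
  exact equiv_shift (good := gd K) (c := cc i α) (fun _ h => gd_two h) hpos
    (fun _ hn m _ => cc_le h hn m) gd_sum i hG.1 (fun s hs => prodG h hG s hs) hgr
    (fun n => Real.log (EP i d α n)) (fun n => -SP i d α n)
    (fun n => log_EP h n) (fun n => by rw [SP_eq])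

end Pool.Agent.H820R3.BSDN.Mot

namespace Pool.Agent.H820R3.BSDN.Hyper

open Pool.Agent.H438R3.BSD
open Pool.Agent.H341R2 (GoodPrime)

open Classical in
/-- the sum of `trace(k) / (k p ^ (k (i + 1)))` over the good primes `p` and the `k ≥ 1` with
`p ^ k ≤ x`, where `trace(k)` is the trace of the `k`-th power of Frobenius on `H^(2i+1)(C^n)` -/
noncomputable def SP (f : Polynomial ℤ) (n i : ℕ) (x : ℕ) : ℝ :=
  ∑ p ∈ Finset.Icc 1 x, if h : p.Prime then (if GoodPrime f 1 ⟨p, h⟩ then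
    ∑ k ∈ Finset.Icc 1 x, (if p ^ k ≤ x then
      (Bei.trace f n (2 * i + 1) ⟨p, h⟩ k : ℝ) / (k * (p : ℝ) ^ (k * (i + 1))) else 0) else 0)
    else 0

/-- the logarithmic average of `-SP(k) - κ log log k` over `2 ≤ k ≤ x` -/
noncomputable def LS (f : Polynomial ℤ) (n i : ℕ) (κ : ℝ) (x : ℕ) : ℝ :=
  (∑ k ∈ Finset.Icc 2 x, (-SP f n i k - κ * Real.log (Real.log k)) / k) / Real.log x

open Classical in
lemma SP_eq (f : Polynomial ℤ) (a i : ℕ) (n : ℕ) :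
    SP f a i n = ∑ x ∈ GenN.GG n, GenN.tt (Gen.goodH f) (Gen.cH f a i) x := by
  have h1 : ∑ x ∈ GenN.GG n, GenN.tt (Gen.goodH f) (Gen.cH f a i) x =
      ∑ q ∈ Finset.range (n + 1), ∑ m ∈ Finset.range n,
        if 2 ≤ q ∧ q ^ (m + 1) ≤ n then GenN.tt (Gen.goodH f) (Gen.cH f a i) (q, m) else 0 := by
    rw [GenN.GG, Finset.sum_filter, Finset.sum_product]
  rw [h1]
  have h2 : ∑ q ∈ Finset.range (n + 1), ∑ m ∈ Finset.range n,
        (if 2 ≤ q ∧ q ^ (m + 1) ≤ n then GenN.tt (Gen.goodH f) (Gen.cH f a i) (q, m) else 0) =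
      ∑ q ∈ Finset.Icc 1 n, ∑ m ∈ Finset.range n,
        if 2 ≤ q ∧ q ^ (m + 1) ≤ n then GenN.tt (Gen.goodH f) (Gen.cH f a i) (q, m) else 0 := by
    symm
    refine Finset.sum_subset (fun q hq => ?_) (fun q hq hq' => ?_)
    · rw [Finset.mem_Icc] at hq
      rw [Finset.mem_range]
      omega
    · have : q = 0 := by
        rw [Finset.mem_range] at hq
        rw [Finset.mem_Icc] at hq'
        omega
      subst this
      simp
  rw [h2]
  unfold SP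
  refine Finset.sum_congr rfl fun p _ => ?_
  by_cases h : p.Prime
  · rw [dif_pos h]
    have hp2 := h.two_le
    have hp0 : (0 : ℝ) < p := by exact_mod_cast h.pos
    by_cases hg : GoodPrime f 1 ⟨p, h⟩
    · rw [if_pos hg]
      have e : Finset.Icc 1 n = (Finset.range n).map
          ⟨fun m => m + 1, fun a b hab => by simpa using hab⟩ := by
        ext k
        rw [Finset.mem_Icc, Finset.mem_map]
        constructor
        · rintro ⟨a1, a2⟩
          refine ⟨k - 1, Finset.mem_range.2 (by omega), ?_⟩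
          show k - 1 + 1 = k
          omega
        · rintro ⟨m, a1, a2⟩
          have a3 := Finset.mem_range.1 a1
          have a4 : m + 1 = k := a2
          omega
      rw [e, Finset.sum_map]
      refine Finset.sum_congr rfl fun m _ => ?_
      show (if p ^ (m + 1) ≤ n then (Bei.trace f a (2 * i + 1) ⟨p, h⟩ (m + 1) : ℝ) /
        (((m + 1 : ℕ) : ℝ) * (p : ℝ) ^ ((m + 1) * (i + 1))) else 0) = _
      by_cases hm : p ^ (m + 1) ≤ n
      · rw [if_pos hm, if_pos ⟨hp2, hm⟩]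
        unfold GenN.tt
        simp only
        rw [if_pos (show Gen.goodH f p from ⟨h, hg⟩)]
        have e4 : Gen.cH f a i p (m + 1) = (Bei.trace f a (2 * i + 1) ⟨p, h⟩ (m + 1) : ℝ) /
            (p : ℝ) ^ ((m + 1) * i) := by
          unfold Gen.cH
          rw [dif_pos h]
          rfl
        have e2 : (p : ℝ) ^ (-((m : ℝ) + 1)) = ((p : ℝ) ^ (m + 1))⁻¹ := by
          rw [Real.rpow_neg hp0.le, ← Real.rpow_natCast]
          push_cast
          rfl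
        rw [e2, e4]
        have e3 : (p : ℝ) ^ ((m + 1) * (i + 1)) = (p : ℝ) ^ ((m + 1) * i) * (p : ℝ) ^ (m + 1) := by
          rw [← pow_add]
          congr 1
        rw [e3]
        push_cast
        field_simp
      · rw [if_neg hm, if_neg fun hh => hm hh.2]
    · rw [if_neg hg]
      symm
      refine Finset.sum_eq_zero fun m _ => ?_
      have : GenN.tt (Gen.goodH f) (Gen.cH f a i) (p, m) = 0 := by
        unfold GenN.tt
        exact if_neg (fun hh : Gen.goodH f p => hg hh.2)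
      rw [this, ite_self]
  · rw [dif_neg h]
    symm
    refine Finset.sum_eq_zero fun m _ => ?_
    have : GenN.tt (Gen.goodH f) (Gen.cH f a i) (p, m) = 0 := by
      unfold GenN.tt
      exact if_neg (fun hh : Gen.goodH f p => h hh.1)
    rw [this, ite_self]

theorem equivB (f : Polynomial ℤ) (hd : 1 ≤ f.natDegree) (n i : ℕ) {G : ℂ → ℂ}
    (hG : Bei.IsL f n i G)
    (hgr : ∃ C N : ℝ, ∀ s : ℂ, (i : ℝ) + 1 ≤ s.re → ‖G s‖ ≤ C * (1 + ‖s‖) ^ N) :
    ∃ (m : ℕ) (l : ℂ), analyticOrderAt G (i + 1) = m ∧ l ≠ 0 ∧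
      Tendsto (fun s : ℂ => G s / (s - (i + 1)) ^ m) (𝓝[≠] ((i : ℂ) + 1)) (𝓝 l) ∧
      (∀ κ : ℝ, List.TFAE [
        (∀ s : ℂ, (i : ℝ) + 1 < s.re → G s ≠ 0) ∧ κ = m,
        κ ≤ m ∧ ∃ C : ℝ, ∀ x : ℕ, Bei.LA f n i κ x ≤ C,
        ∃ C : ℝ, ∀ x : ℕ, |Bei.LA f n i κ x| ≤ C,
        κ ≤ m ∧ ∃ C : ℝ, ∀ x : ℕ, LS f n i κ x ≤ C,
        ∃ t : ℝ, Tendsto (fun x : ℕ => LS f n i κ x) atTop (𝓝 t),
        Tendsto (fun x : ℕ => LS f n i κ x) atTop
          (𝓝 (κ * Real.eulerMascheroniConstant - Real.log ‖l‖))]) ∧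
      ∀ κ Λ : ℝ, 0 < Λ →
        (((∀ s : ℂ, (i : ℝ) + 1 < s.re → G s ≠ 0) ∧ κ = m ∧ ‖l‖ = Λ) ↔
          Tendsto (fun x : ℕ => LS f n i κ x) atTop
            (𝓝 (κ * Real.eulerMascheroniConstant - Real.log Λ))) := by
  classical
  have hs : Summable (fun n : ℕ => if Gen.goodH f n ∧ ¬ n.Prime then (1 : ℝ) / n else 0) := by
    have : (fun n : ℕ => if Gen.goodH f n ∧ ¬ n.Prime then (1 : ℝ) / n else 0) = fun _ => 0 := by
      funext n
      exact if_neg fun h => h.2 h.1.1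
    rw [this]
    exact summable_zero
  exact equiv_shift (good := Gen.goodH f) (c := Gen.cH f n i)
    (K := (5 * f.natDegree + 1 + 2) ^ n)
    (fun p hp => hp.1.two_le) (by positivity) (fun p hp m hm => Gen.cH_le f hd n i p hp m hm) hs
    i hG.1 (fun s h => Gen.prodH f n i (Bei.isLH hG) s h) hgr
    (fun x => Real.log (Bei.EP f n i x)) (fun x => -SP f n i x)
    (fun x => by rw [Bei.log_EP, Gen.lH_eq]; rfl) (fun x => by rw [SP_eq])

end Pool.Agent.H820R3.BSDN.Hyper
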