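import Pool.Agent.H814R3.BSD.T_Lim
import Pool.Agent.H814R3.BSD.T_Avg

/-! Bounded forms of `TaskLim` (helper814's project, `T_Lim.lean`) and `TaskAvg` (helper41). -/

set_option autoImplicit false

open Complex Filter Topology MeasureTheory

namespace Pool.Agent.H820R3.BSDN

open Pool.Agent.H814R3.BSD Pool.Agent.H41R3.BSDAvg

theorem lim_bdd (h1 : TaskKap) (h : ℝ → ℝ → ℝ) (C δ U0 : ℝ) (hδ : 0 < δ) (hU0 : 1 ≤ U0)
    (hcont : ∀ U : ℝ, U0 ≤ U → Continuous (h U))
    (hnear : ∀ U τ : ℝ, U0 ≤ U → |τ| ≤ δ * U → |h U τ| ≤ C * (1 + Real.log (1 + |τ|)))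
    (hfar : ∀ U : ℝ, U0 ≤ U → Integrable (fun t : ℝ => |h U (U * t)| / (1 + t ^ 2)) ∧
      ∫ t : ℝ, |h U (U * t)| / (1 + t ^ 2) ≤ C * (1 + Real.log U)) :
    ∃ M : ℝ, ∀ U : ℝ, U0 ≤ U → |1 / (2 * Real.pi) * ∫ τ : ℝ, kap τ * h U τ| ≤ M := by
  obtain ⟨⟨Ck, hCk⟩, hkc, -⟩ := h1
  have hCk0 : 0 ≤ Ck := by
    have := (abs_nonneg _).trans (hCk 0)
    simpa using this
  have hC0 : 0 ≤ C := by
    have := (abs_nonneg _).trans (hnear U0 0 le_rfl (by simp; positivity))
    simpa using this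
  -- the far bound
  set K : ℝ := Ck * (1 + δ⁻¹ ^ 2) with hK
  have hK0 : 0 ≤ K := by positivity
  have hfarb : ∀ U τ : ℝ, U0 ≤ U → ¬ |τ| ≤ δ * U →
      |kap τ * h U τ| ≤ K / U ^ 2 * (|h U τ| / (1 + (τ / U) ^ 2)) := by
    intro U τ hU hτ
    push Not at hτ
    have hUp : 0 < U := by linarith
    have hτ0 : 0 < |τ| := lt_trans (by positivity) hτ
    have hτ2 : 0 < τ ^ 2 := by rw [← sq_abs]; positivity
    rw [abs_mul]
    have e1 : |kap τ| ≤ K / U ^ 2 * (1 / (1 + (τ / U) ^ 2)) := by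
      refine (hCk τ).trans ?_
      have e2 : K / U ^ 2 * (1 / (1 + (τ / U) ^ 2)) = Ck * ((1 + δ⁻¹ ^ 2) / (U ^ 2 + τ ^ 2)) := by
        rw [hK]; field_simp
      rw [e2, div_eq_mul_one_div]
      refine mul_le_mul_of_nonneg_left ?_ hCk0
      rw [div_le_div_iff₀ (by positivity) (by positivity)]
      have e3 : U ^ 2 ≤ δ⁻¹ ^ 2 * τ ^ 2 := by
        have : U ≤ δ⁻¹ * |τ| := by
          rw [← div_eq_inv_mul, le_div_iff₀ hδ]; linarith
        calc U ^ 2 ≤ (δ⁻¹ * |τ|) ^ 2 := pow_le_pow_left₀ hUp.le this 2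
          _ = δ⁻¹ ^ 2 * τ ^ 2 := by rw [mul_pow, sq_abs]
      nlinarith [sq_nonneg δ⁻¹]
    calc |kap τ| * |h U τ| ≤ K / U ^ 2 * (1 / (1 + (τ / U) ^ 2)) * |h U τ| :=
          mul_le_mul_of_nonneg_right e1 (abs_nonneg _)
      _ = K / U ^ 2 * (|h U τ| / (1 + (τ / U) ^ 2)) := by ring
  have hnearb : ∀ U τ : ℝ, U0 ≤ U → |τ| ≤ δ * U →
      |kap τ * h U τ| ≤ (4 * Ck * C) * (1 + ‖τ‖) ^ (-(3 / 2) : ℝ) := by
    intro U τ hU hτ
    refine le_trans ?_ (TLim.major Ck C τ hCk0 hC0)
    rw [abs_mul]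
    exact mul_le_mul (hCk τ) (hnear U τ hU hτ) (abs_nonneg _) (by positivity)
  have hmaj : Integrable (fun τ : ℝ => (4 * Ck * C) * (1 + ‖τ‖) ^ (-(3 / 2) : ℝ)) := by
    refine Integrable.const_mul ?_ _
    exact integrable_one_add_norm (by norm_num)
  -- the rescaled far majorant
  have hG : ∀ U : ℝ, U0 ≤ U → Integrable (fun τ : ℝ => |h U τ| / (1 + (τ / U) ^ 2)) ∧
      ∫ τ : ℝ, |h U τ| / (1 + (τ / U) ^ 2) ≤ U * (C * (1 + Real.log U)) := by
    intro U hU
    have hUp : 0 < U := by linarith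
    obtain ⟨i1, i2⟩ := hfar U hU
    have e : (fun τ : ℝ => |h U τ| / (1 + (τ / U) ^ 2)) =
        fun τ : ℝ => (fun t : ℝ => |h U (U * t)| / (1 + t ^ 2)) (τ / U) := by
      funext τ
      have : U * (τ / U) = τ := by field_simp
      simp only [this]
    rw [e]
    refine ⟨i1.comp_div hUp.ne', ?_⟩
    have e3 := Measure.integral_comp_div (fun t : ℝ => |h U (U * t)| / (1 + t ^ 2)) U
    refine (le_of_eq e3).trans ?_
    rw [smul_eq_mul, abs_of_pos hUp]
    exact mul_le_mul_of_nonneg_left i2 hUp.le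
  let A : ℝ → Set ℝ := fun U => {τ : ℝ | |τ| ≤ δ * U}
  have hA : ∀ U, MeasurableSet (A U) := fun U =>
    (isClosed_le continuous_abs continuous_const).measurableSet
  have hm : ∀ U, U0 ≤ U → AEStronglyMeasurable (fun τ => kap τ * h U τ) volume := fun U hU =>
    (hkc.mul (hcont U hU)).aestronglyMeasurable
  have hI1 : ∀ U, U0 ≤ U → Integrable ((A U).indicator fun τ => kap τ * h U τ) := by
    intro U hU
    refine hmaj.mono' ((hm U hU).indicator (hA U)) (Eventually.of_forall fun τ => ?_)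
    by_cases hτ : τ ∈ A U
    · rw [Set.indicator_of_mem hτ]
      exact hnearb U τ hU hτ
    · rw [Set.indicator_of_notMem hτ, norm_zero]
      positivity
  have hI2' : ∀ U, U0 ≤ U → ∀ τ, ‖(A U)ᶜ.indicator (fun τ => kap τ * h U τ) τ‖ ≤
      K / U ^ 2 * (|h U τ| / (1 + (τ / U) ^ 2)) := by
    intro U hU τ
    by_cases hτ : τ ∈ (A U)ᶜ
    · rw [Set.indicator_of_mem hτ]
      exact hfarb U τ hU hτ
    · rw [Set.indicator_of_notMem hτ, norm_zero]
      positivity
  have hI2 : ∀ U, U0 ≤ U → Integrable ((A U)ᶜ.indicator fun τ => kap τ * h U τ) := by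
    intro U hU
    exact ((hG U hU).1.const_mul (K / U ^ 2)).mono' ((hm U hU).indicator (hA U).compl)
      (Eventually.of_forall (hI2' U hU))
  have hsplit : ∀ U, U0 ≤ U → ∫ τ, kap τ * h U τ =
      (∫ τ, (A U).indicator (fun τ => kap τ * h U τ) τ) +
      ∫ τ, (A U)ᶜ.indicator (fun τ => kap τ * h U τ) τ := by
    intro U hU
    rw [← integral_add (hI1 U hU) (hI2 U hU)]
    refine integral_congr_ae (Eventually.of_forall fun τ => ?_)
    exact (congrFun (Set.indicator_self_add_compl (A U) fun τ => kap τ * h U τ) τ).symm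
  set J1 : ℝ := ∫ τ : ℝ, (4 * Ck * C) * (1 + ‖τ‖) ^ (-(3 / 2) : ℝ) with hJ1
  refine ⟨1 / (2 * Real.pi) * (J1 + K * C), fun U hU => ?_⟩
  have hUp : 0 < U := by linarith
  have hpi := Real.pi_pos
  rw [abs_mul, abs_of_pos (by positivity : (0 : ℝ) < 1 / (2 * Real.pi)), hsplit U hU]
  refine mul_le_mul_of_nonneg_left ((abs_add_le _ _).trans (add_le_add ?_ ?_)) (by positivity)
  · rw [← Real.norm_eq_abs]
    refine norm_integral_le_of_norm_le hmaj (Eventually.of_forall fun τ => ?_)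
    by_cases hτ : τ ∈ A U
    · rw [Set.indicator_of_mem hτ]
      exact hnearb U τ hU hτ
    · rw [Set.indicator_of_notMem hτ, norm_zero]
      positivity
  · rw [← Real.norm_eq_abs]
    refine (norm_integral_le_of_norm_le ((hG U hU).1.const_mul (K / U ^ 2))
      (Eventually.of_forall (hI2' U hU))).trans ?_
    rw [integral_const_mul]
    refine (mul_le_mul_of_nonneg_left (hG U hU).2 (by positivity)).trans ?_
    have e : K / U ^ 2 * (U * (C * (1 + Real.log U))) = K * C * ((1 + Real.log U) / U) := by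
      field_simp
    rw [e]
    have h3 : (1 + Real.log U) / U ≤ 1 := by
      rw [div_le_one hUp]
      have := Real.log_le_sub_one_of_pos hUp
      linarith
    calc K * C * ((1 + Real.log U) / U) ≤ K * C * 1 := mul_le_mul_of_nonneg_left h3 (by positivity)
      _ = K * C := mul_one _

theorem avg_bdd (a : ℕ → ℝ) (K h : ℝ)
    (ha : ∀ n : ℕ, 1 ≤ n → |a n| ≤ K * (n : ℝ) ^ (-(1 / 2) : ℝ))
    (hlim : ∀ᶠ U : ℝ in atTop, |∑ k ∈ Finset.Icc 1 ⌊Real.exp U⌋₊, a k * (1 - Real.log k / U)| ≤ h) :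
    ∃ M : ℝ, ∀ᶠ n : ℕ in atTop,
      |(∑ j ∈ Finset.Icc 2 n, (∑ k ∈ Finset.Icc 1 j, a k) / j) / Real.log n| ≤ M := by
  have ha' : ∀ n : ℕ, 1 ≤ n → |a n| ≤ K * (1 / Real.sqrt n) := by
    intro n hn
    have h1 := ha n hn
    rw [Real.rpow_neg (Nat.cast_nonneg n), ← Real.sqrt_eq_rpow, ← one_div] at h1
    exact h1
  have hK : 0 ≤ K := by
    have h1 := ha' 1 le_rfl
    simp at h1
    exact (abs_nonneg _).trans h1
  set A : ℕ → ℝ := fun n => ∑ k ∈ Finset.Icc 1 n, a k with hA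
  set T : ℕ → ℝ := fun n => ∑ j ∈ Finset.Icc 2 n, A j / j with hT
  set R : ℕ → ℝ := fun n => ∑ k ∈ Finset.Icc 1 n, a k * (Real.log n - Real.log k) with hR
  have hAb : ∀ n : ℕ, |A n| ≤ 2 * K * Real.sqrt n := by
    intro n
    induction n with
    | zero => simp [hA]
    | succ n ih =>
      have e : A (n + 1) = A n + a (n + 1) := by
        simp only [hA]
        exact Finset.sum_Icc_succ_top (by omega) _
      rw [e]
      have h1 := ha' (n + 1) (by omega)
      push_cast at h1 ⊢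
      have h2 := Pool.Agent.H41R3.BSDAvg.sqrt_step n
      have h3 : K * (1 / Real.sqrt ((n : ℝ) + 1)) ≤
          K * (2 * (Real.sqrt ((n : ℝ) + 1) - Real.sqrt n)) := mul_le_mul_of_nonneg_left h2 hK
      have h4 := abs_add_le (A n) (a (n + 1))
      linarith
  -- increments
  have hinc : ∀ n : ℕ, 1 ≤ n → |(T (n + 1) - R (n + 1)) - (T n - R n)| ≤
      3 * K * (1 / ((n : ℝ) * Real.sqrt n)) := by
    intro n hn
    have hn0 : (0 : ℝ) < n := by exact_mod_cast hn
    have hs0 : 0 < Real.sqrt n := Real.sqrt_pos.mpr hn0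
    have eT : T (n + 1) = T n + A (n + 1) / ((n : ℝ) + 1) := by
      simp only [hT]
      rw [Finset.sum_Icc_succ_top (by omega)]
      push_cast
      rfl
    have eA : A (n + 1) = A n + a (n + 1) := by
      simp only [hA]
      exact Finset.sum_Icc_succ_top (by omega) _
    have eR : R (n + 1) = R n + A n * (Real.log ((n : ℝ) + 1) - Real.log n) := by
      simp only [hR, hA]
      rw [Finset.sum_Icc_succ_top (by omega), sub_self, mul_zero, add_zero, Finset.sum_mul,
        ← Finset.sum_add_distrib]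
      refine Finset.sum_congr rfl fun k _ => ?_
      push_cast
      ring
    have e : (T (n + 1) - R (n + 1)) - (T n - R n) =
        a (n + 1) / ((n : ℝ) + 1) +
          A n * (1 / ((n : ℝ) + 1) - (Real.log ((n : ℝ) + 1) - Real.log n)) := by
      rw [eT, eR, eA]
      ring
    rw [e]
    have b1 : |a (n + 1) / ((n : ℝ) + 1)| ≤ K * (1 / ((n : ℝ) * Real.sqrt n)) := by
      rw [abs_div, abs_of_pos (show (0 : ℝ) < n + 1 by positivity), div_le_iff₀ (by positivity)]
      have h1 := ha' (n + 1) (by omega)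
      push_cast at h1
      refine h1.trans ?_
      rw [mul_assoc]
      refine mul_le_mul_of_nonneg_left ?_ hK
      have h2 : Real.sqrt n ≤ Real.sqrt ((n : ℝ) + 1) := Real.sqrt_le_sqrt (by linarith)
      calc 1 / Real.sqrt ((n : ℝ) + 1) ≤ 1 / Real.sqrt n := one_div_le_one_div_of_le hs0 h2
        _ = 1 / ((n : ℝ) * Real.sqrt n) * n := by field_simp
        _ ≤ 1 / ((n : ℝ) * Real.sqrt n) * ((n : ℝ) + 1) := by gcongr; linarith
    have b2 : |A n * (1 / ((n : ℝ) + 1) - (Real.log ((n : ℝ) + 1) - Real.log n))| ≤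
        2 * K * (1 / ((n : ℝ) * Real.sqrt n)) := by
      rw [abs_mul]
      calc |A n| * |1 / ((n : ℝ) + 1) - (Real.log ((n : ℝ) + 1) - Real.log n)|
          ≤ (2 * K * Real.sqrt n) * (1 / (n * ((n : ℝ) + 1))) :=
            mul_le_mul (hAb n) (Pool.Agent.H41R3.BSDAvg.log_step n hn) (abs_nonneg _) (by positivity)
        _ ≤ (2 * K * Real.sqrt n) * (1 / (n * n)) := by gcongr; linarith
        _ = 2 * K * (1 / ((n : ℝ) * Real.sqrt n)) := by
            have h1 : Real.sqrt n * Real.sqrt n = n := Real.mul_self_sqrt hn0.le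
            have h2 : Real.sqrt n * (1 / ((n : ℝ) * n)) = 1 / ((n : ℝ) * Real.sqrt n) := by
              rw [mul_one_div, div_eq_div_iff (by positivity) (by positivity)]
              calc Real.sqrt n * ((n : ℝ) * Real.sqrt n) = n * (Real.sqrt n * Real.sqrt n) := by ring
                _ = 1 * (n * n) := by rw [h1]; ring
            rw [mul_assoc, h2]
    refine (abs_add_le _ _).trans ?_
    linarith
  have hsum : Summable (fun n : ℕ => 3 * K * (1 / ((n : ℝ) * Real.sqrt n))) := by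
    refine Summable.mul_left _ ?_
    have h1 : Summable (fun n : ℕ => ((n : ℝ) ^ (3 / 2 : ℝ))⁻¹) :=
      Real.summable_nat_rpow_inv.mpr (by norm_num)
    refine h1.congr fun n => ?_
    rw [one_div]
    congr 1
    rcases Nat.eq_zero_or_pos n with rfl | hn
    · simp
    · have hn0 : (0 : ℝ) < n := by exact_mod_cast hn
      rw [show (3 / 2 : ℝ) = 1 + 1 / 2 by norm_num, Real.rpow_add hn0, Real.rpow_one,
        Real.sqrt_eq_rpow]
  have hTR1 : T 1 - R 1 = 0 := by
    simp [hT, hR]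
  obtain ⟨M, hM⟩ : ∃ M : ℝ, ∀ n : ℕ, 1 ≤ n → |T n - R n| ≤ M := by
    refine ⟨∑' n : ℕ, 3 * K * (1 / ((n : ℝ) * Real.sqrt n)), fun n hn => ?_⟩
    have h1 : |T n - R n| ≤ ∑ j ∈ Finset.range n, 3 * K * (1 / ((j : ℝ) * Real.sqrt j)) := by
      induction n, hn using Nat.le_induction with
      | base => rw [hTR1]; simp
      | succ m hm ih =>
        rw [Finset.sum_range_succ]
        have h2 := hinc m hm
        have h3 : T (m + 1) - R (m + 1) = (T m - R m) + ((T (m + 1) - R (m + 1)) - (T m - R m)) := by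
          ring
        rw [h3]
        exact (abs_add_le _ _).trans (add_le_add ih h2)
    exact h1.trans (hsum.sum_le_tsum _ fun j _ => by positivity)
  have hlog : Tendsto (fun n : ℕ => Real.log (n : ℝ)) atTop atTop :=
    Real.tendsto_log_atTop.comp tendsto_natCast_atTop_atTop
  have hRlim : ∀ᶠ n : ℕ in atTop, |R n / Real.log n| ≤ h := by
    filter_upwards [hlog.eventually hlim, eventually_ge_atTop 2] with n h1 hn
    have hn0 : (0 : ℝ) < n := by exact_mod_cast (by omega : 0 < n)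
    have hl : 0 < Real.log n := Real.log_pos (by exact_mod_cast (by omega : 1 < n))
    have e : R n / Real.log n = ∑ k ∈ Finset.Icc 1 ⌊Real.exp (Real.log n)⌋₊,
        a k * (1 - Real.log k / Real.log n) := by
      simp only [Real.exp_log hn0, Nat.floor_natCast, hR]
      rw [Finset.sum_div]
      refine Finset.sum_congr rfl fun k _ => ?_
      field_simp
    rw [e]
    exact h1
  refine ⟨h + |M|, ?_⟩
  filter_upwards [hRlim, hlog.eventually_ge_atTop 1, eventually_ge_atTop 1] with n h1 h2 h3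
  have e : T n / Real.log n = R n / Real.log n + (T n - R n) / Real.log n := by ring
  have h4 : |(T n - R n) / Real.log n| ≤ |M| := by
    rw [abs_div, abs_of_pos (by linarith : (0 : ℝ) < Real.log n), div_le_iff₀ (by linarith)]
    have h5 := (hM n h3).trans (le_abs_self M)
    have h6 := abs_nonneg M
    nlinarith
  show |T n / Real.log n| ≤ h + |M|
  rw [e]
  exact (abs_add_le _ _).trans (add_le_add h1 h4)

end Pool.Agent.H820R3.BSDN
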