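import Pool.Agent.H820R3.BSDN.G5

/-! Averaged products at the centre for arbitrary systems of Frobenius eigenvalues of odd weight
over a number field. -/

set_option autoImplicit false

open Complex Filter Topology Finset NumberField IsDedekindDomain

namespace Pool.Agent.H820R3.BSDN.Mot

open Pool.Agent.H438R3.BSD
open Pool.Agent.H438R3.BSD.NF (fib fib_card mem_fib)
open Pool.Agent.H921R2.TatePole (nm two_le_nm below deg)

variable {K : Type} [Field K] [NumberField K]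

/-- `α v j`, `j = 1, ..., d`, are complex numbers of absolute value at most `q_v^(i + 1/2)` (`q_v` the
norm of `v`), with real power sums, for every prime `v` of the number field -/
def Sys (i d : ℕ) (α : HeightOneSpectrum (𝓞 K) → Fin d → ℂ) : Prop :=
  ∀ v, (∀ j, ‖α v j‖ ≤ (Ideal.absNorm v.asIdeal : ℝ) ^ ((i : ℝ) + 1 / 2)) ∧
    ∀ r : ℕ, (∑ j, α v j ^ r).im = 0

/-- `G` is entire and for `Re s > i + 3/2` it is the Euler product with the local factors
`∏_j (1 - α v j q_v^(-s))⁻¹` -/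
def IsL (i d : ℕ) (α : HeightOneSpectrum (𝓞 K) → Fin d → ℂ) (G : ℂ → ℂ) : Prop :=
  Differentiable ℂ G ∧ ∀ s : ℂ, (i : ℝ) + 3 / 2 < s.re →
    HasProd (fun v : HeightOneSpectrum (𝓞 K) =>
      ∏ j, (1 - α v j * (Ideal.absNorm v.asIdeal : ℂ) ^ (-s))⁻¹) (G s)

/-- the product of the inverse local factors at `s = i + 1` over the primes with `q_v ≤ x` -/
noncomputable def EP (i d : ℕ) (α : HeightOneSpectrum (𝓞 K) → Fin d → ℂ) (x : ℕ) : ℝ :=
  ∏ᶠ v : HeightOneSpectrum (𝓞 K), if Ideal.absNorm v.asIdeal ≤ x then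
    ∏ j, ‖1 - α v j / (Ideal.absNorm v.asIdeal : ℂ) ^ (i + 1)‖ else 1

/-- the logarithmic average of `log EP(n) - κ log log n` over `2 ≤ n ≤ x` -/
noncomputable def LA (i d : ℕ) (α : HeightOneSpectrum (𝓞 K) → Fin d → ℂ) (κ : ℝ) (x : ℕ) : ℝ :=
  (∑ n ∈ Finset.Icc 2 x, (Real.log (EP i d α n) - κ * Real.log (Real.log n)) / n) / Real.log x

variable {i d : ℕ} {α : HeightOneSpectrum (𝓞 K) → Fin d → ℂ}

lemma nmp (v : HeightOneSpectrum (𝓞 K)) : (0 : ℝ) < nm v := by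
  have := two_le_nm v
  exact_mod_cast (by omega : 0 < nm v)

/-- the normalised eigenvalues -/
noncomputable def be (i : ℕ) (α : HeightOneSpectrum (𝓞 K) → Fin d → ℂ)
    (v : HeightOneSpectrum (𝓞 K)) (j : Fin d) : ℂ := α v j / (nm v : ℂ) ^ i

lemma be_norm (h : Sys i d α) (v : HeightOneSpectrum (𝓞 K)) (j : Fin d) :
    ‖be i α v j‖ ≤ (nm v : ℝ) ^ (1 / 2 : ℝ) := by
  have hp := nmp v
  unfold be
  rw [norm_div, norm_pow, Complex.norm_natCast, div_le_iff₀ (by positivity)]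
  refine ((h v).1 j).trans (le_of_eq ?_)
  show (nm v : ℝ) ^ ((i : ℝ) + 1 / 2) = _
  rw [← Real.rpow_natCast, ← Real.rpow_add hp]
  congr 1
  ring

lemma be_real (h : Sys i d α) (v : HeightOneSpectrum (𝓞 K)) (r : ℕ) :
    ((∑ j, be i α v j ^ r).re : ℂ) = ∑ j, be i α v j ^ r := by
  have e : ∑ j, be i α v j ^ r = (∑ j, α v j ^ r) / ((nm v : ℂ) ^ i) ^ r := by
    unfold be
    rw [Finset.sum_div]
    exact Finset.sum_congr rfl fun j _ => div_pow _ _ _
  have h2 : (∑ j, be i α v j ^ r).im = 0 := by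
    rw [e]
    have e2 : ((nm v : ℂ) ^ i) ^ r = ((((nm v : ℝ) ^ i) ^ r : ℝ) : ℂ) := by push_cast; rfl
    rw [e2, Complex.div_ofReal_im, (h v).2 r, zero_div]
  refine Complex.ext (by simp) ?_
  rw [Complex.ofReal_im, h2]

variable (K) in
/-- some place has norm `n` -/
def gd (n : ℕ) : Prop := ∃ v : HeightOneSpectrum (𝓞 K), nm v = n

lemma gd_two {n : ℕ} (h : gd K n) : 2 ≤ n := by
  obtain ⟨v, hv⟩ := h
  rw [← hv]
  exact two_le_nm v

/-- the traces -/
noncomputable def cc (i : ℕ) (α : HeightOneSpectrum (𝓞 K) → Fin d → ℂ) (n m : ℕ) : ℝ :=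
  ∑ v ∈ fib K n, (∑ j, be i α v j ^ m).re

lemma cc_le (h : Sys i d α) {n : ℕ} (hn : gd K n) (m : ℕ) :
    |cc i α n m| ≤ ((d : ℝ) * Module.finrank ℚ K) * (n : ℝ) ^ ((m : ℝ) / 2) := by
  have hn0 : (0 : ℝ) < n := by
    have := gd_two hn
    exact_mod_cast (by omega : 0 < n)
  unfold cc
  calc _ ≤ ∑ v ∈ fib K n, |(∑ j, be i α v j ^ m).re| := Finset.abs_sum_le_sum_abs _ _
    _ ≤ ∑ v ∈ fib K n, d * (n : ℝ) ^ ((m : ℝ) / 2) := by
        refine Finset.sum_le_sum fun v hv => ?_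
        have hvn := mem_fib.1 hv
        refine (Complex.abs_re_le_norm _).trans ((norm_sum_le _ _).trans ?_)
        calc ∑ j : Fin d, ‖be i α v j ^ m‖ ≤ ∑ j : Fin d, (n : ℝ) ^ ((m : ℝ) / 2) := by
              refine Finset.sum_le_sum fun j _ => ?_
              rw [norm_pow]
              refine (pow_le_pow_left₀ (norm_nonneg _) (be_norm h v j) m).trans (le_of_eq ?_)
              rw [hvn, ← Real.rpow_natCast, ← Real.rpow_mul hn0.le]
              congr 1
              ring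
          _ = d * (n : ℝ) ^ ((m : ℝ) / 2) := by simp
    _ = (fib K n).card * (d * (n : ℝ) ^ ((m : ℝ) / 2)) := by rw [Finset.sum_const, nsmul_eq_mul]
    _ ≤ Module.finrank ℚ K * (d * (n : ℝ) ^ ((m : ℝ) / 2)) := by
        refine mul_le_mul_of_nonneg_right ?_ (by positivity)
        exact_mod_cast fib_card K n
    _ = _ := by ring

lemma gd_sum [DecidablePred (gd K)] :
    Summable (fun n : ℕ => if gd K n ∧ ¬ n.Prime then (1 : ℝ) / n else 0) := by
  classical
  have := NF.sum_powers (fun n => gd K n ∧ ¬ n.Prime) (by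
    rintro n ⟨⟨v, hv⟩, hn⟩
    obtain ⟨h1, h2, -⟩ := Pool.Agent.H921R2.TatePole.nm_eq v
    have h3 : 2 ≤ deg v := by
      by_contra hcon
      have : deg v = 1 := by omega
      rw [this, pow_one] at h1
      apply hn
      rw [← hv, h1]
      exact (below v).2
    refine ⟨below v, deg v - 2, ?_⟩
    rw [← hv, h1]
    congr 1
    omega)
  refine this.congr fun n => ?_
  congr

/-- the logarithm of the local factor -/
noncomputable def lfac (i : ℕ) (α : HeightOneSpectrum (𝓞 K) → Fin d → ℂ) (s : ℂ)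
    (v : HeightOneSpectrum (𝓞 K)) : ℂ := ∑ j, -Complex.log (1 - be i α v j * (nm v : ℂ) ^ (-s))

lemma norm_lt (h : Sys i d α) (v : HeightOneSpectrum (𝓞 K)) (j : Fin d) (s : ℂ) (hs : 1 ≤ s.re) :
    ‖be i α v j * (nm v : ℂ) ^ (-s)‖ < 1 := by
  have hp := nmp v
  have hp2 := two_le_nm v
  have hp1 : (1 : ℝ) < nm v := by exact_mod_cast (by omega : 1 < nm v)
  rw [norm_mul, Complex.norm_natCast_cpow_of_pos (by omega)]
  calc ‖be i α v j‖ * (nm v : ℝ) ^ (-s).re ≤ (nm v : ℝ) ^ (1 / 2 : ℝ) * (nm v : ℝ) ^ (-s).re :=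
        mul_le_mul_of_nonneg_right (be_norm h v j) (by positivity)
    _ = (nm v : ℝ) ^ (1 / 2 - s.re) := by rw [← Real.rpow_add hp]; congr 1
    _ < 1 := Real.rpow_lt_one_of_one_lt_of_neg hp1 (by linarith)

lemma local_series (h : Sys i d α) (v : HeightOneSpectrum (𝓞 K)) (s : ℂ) (hs : 1 ≤ s.re) :
    HasSum (fun m : ℕ => ((∑ j, be i α v j ^ (m + 1)).re : ℂ) *
      (nm v : ℂ) ^ (-((m + 1 : ℂ) * s)) / (m + 1 : ℂ)) (lfac i α s v) := by
  have h1 : HasSum (fun m : ℕ => ∑ j, (be i α v j * (nm v : ℂ) ^ (-s)) ^ (m + 1) / ((m + 1 : ℕ) : ℂ))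
      (lfac i α s v) := by
    unfold lfac
    refine hasSum_sum fun j _ => ?_
    have h2 := Complex.hasSum_taylorSeries_neg_log (norm_lt h v j s hs)
    have h3 := (hasSum_nat_add_iff' (f := fun n : ℕ => (be i α v j * (nm v : ℂ) ^ (-s)) ^ n / n) 1).2 h2
    simp only [sum_range_one, Nat.cast_zero, div_zero, sub_zero] at h3
    exact h3
  suffices e : (fun m : ℕ => ((∑ j, be i α v j ^ (m + 1)).re : ℂ) *
      (nm v : ℂ) ^ (-((m + 1 : ℂ) * s)) / (m + 1 : ℂ)) = fun m : ℕ =>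
      ∑ j, (be i α v j * (nm v : ℂ) ^ (-s)) ^ (m + 1) / ((m + 1 : ℕ) : ℂ) by
    rw [e]; exact h1
  funext m
  have e2 : (nm v : ℂ) ^ (-((m + 1 : ℂ) * s)) = ((nm v : ℂ) ^ (-s)) ^ (m + 1) := by
    rw [← Complex.cpow_nat_mul]
    congr 1
    push_cast
    ring
  rw [be_real h, e2, Finset.sum_mul, Finset.sum_div]
  refine Finset.sum_congr rfl fun j _ => ?_
  rw [mul_pow]
  push_cast
  ring

lemma one_sub_ne (h : Sys i d α) (v : HeightOneSpectrum (𝓞 K)) (j : Fin d) (s : ℂ)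
    (hs : 1 ≤ s.re) : 1 - be i α v j * (nm v : ℂ) ^ (-s) ≠ 0 := by
  intro h0
  have h4 := norm_lt h v j s hs
  have h5 : be i α v j * (nm v : ℂ) ^ (-s) = 1 := (sub_eq_zero.1 h0).symm
  rw [h5, norm_one] at h4
  exact lt_irrefl _ h4

lemma exp_lfac (h : Sys i d α) (s : ℂ) (hs : 1 ≤ s.re) (v : HeightOneSpectrum (𝓞 K)) :
    exp (lfac i α s v) = ∏ j, (1 - be i α v j * (nm v : ℂ) ^ (-s))⁻¹ := by
  unfold lfac
  rw [Complex.exp_sum]
  refine Finset.prod_congr rfl fun j _ => ?_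
  rw [Complex.exp_neg, Complex.exp_log (one_sub_ne h v j s hs)]

lemma fac_shift (s : ℂ) (v : HeightOneSpectrum (𝓞 K)) (j : Fin d) :
    be i α v j * (nm v : ℂ) ^ (-s) = α v j * (nm v : ℂ) ^ (-(s + i)) := by
  have hc : (nm v : ℂ) ≠ 0 := by
    have := nmp v
    exact_mod_cast this.ne'
  unfold be
  have e : (nm v : ℂ) ^ (-(s + i)) = (nm v : ℂ) ^ (-s) / (nm v : ℂ) ^ i := by
    rw [neg_add, ← sub_eq_add_neg, Complex.cpow_sub _ _ hc, Complex.cpow_natCast]
  rw [e]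
  ring

open Classical in
lemma LLc_eq (h : Sys i d α) (s : ℂ) (hs : 1 ≤ s.re) (n : ℕ) :
    GenN.LLc (gd K) (cc i α) n s = ∑ v ∈ fib K n, lfac i α s v := by
  unfold GenN.LLc
  split_ifs with hn
  · have h1 : HasSum (fun m : ℕ => ∑ v ∈ fib K n, (((∑ j, be i α v j ^ (m + 1)).re : ℂ) *
        (nm v : ℂ) ^ (-((m + 1 : ℂ) * s)) / (m + 1 : ℂ))) (∑ v ∈ fib K n, lfac i α s v) :=
      hasSum_sum fun v _ => local_series h v s hs
    rw [← h1.tsum_eq]
    refine tsum_congr fun m => ?_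
    unfold cc
    rw [Complex.ofReal_sum, Finset.sum_mul, Finset.sum_div]
    refine Finset.sum_congr rfl fun v hv => ?_
    rw [mem_fib.1 hv]
  · symm
    refine Finset.sum_eq_zero fun v hv => ?_
    exact absurd ⟨v, mem_fib.1 hv⟩ hn

open Classical in
lemma ellc_eq (h : Sys i d α) (n : ℕ) : GenN.ellc (gd K) (cc i α) n =
    ∑ v ∈ fib K n, ∑ j, Real.log ‖1 - α v j / (nm v : ℂ) ^ (i + 1)‖ := by
  have h1 : ((GenN.ellc (gd K) (cc i α) n : ℝ) : ℂ) = -GenN.LLc (gd K) (cc i α) n 1 := by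
    unfold GenN.ellc GenN.LLc
    split_ifs with hn
    · push_cast
      congr 1
      refine tsum_congr fun m => ?_
      rw [Complex.ofReal_cpow (Nat.cast_nonneg n)]
      push_cast
      rw [mul_one]
    · simp
  have h2 : GenN.ellc (gd K) (cc i α) n = (-GenN.LLc (gd K) (cc i α) n 1).re := by
    rw [← h1, Complex.ofReal_re]
  rw [h2, LLc_eq h 1 (by simp) n, Complex.neg_re, Complex.re_sum, ← Finset.sum_neg_distrib]
  refine Finset.sum_congr rfl fun v _ => ?_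
  unfold lfac
  rw [Complex.re_sum, ← Finset.sum_neg_distrib]
  refine Finset.sum_congr rfl fun j _ => ?_
  rw [Complex.neg_re, neg_neg, Complex.log_re]
  congr 3
  have hc : (nm v : ℂ) ≠ 0 := by
    have := nmp v
    exact_mod_cast this.ne'
  unfold be
  rw [Complex.cpow_neg_one]
  field_simp
  ring

open Classical in
lemma prodG (h : Sys i d α) {G : ℂ → ℂ} (hG : IsL i d α G) (s : ℂ) (hs : 3 / 2 < s.re) :
    HasProd (fun n : ℕ => exp (GenN.LLc (gd K) (cc i α) n s)) (G (s + i)) := by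
  have hs1 : 1 ≤ s.re := by linarith
  have h0 := hG.2 (s + i) (by simp; linarith)
  have h1 := (Equiv.hasProd_iff (Equiv.sigmaFiberEquiv (nm (K := K)))).2 h0
  refine h1.sigma fun n => ?_
  rw [LLc_eq h s hs1 n, Complex.exp_sum]
  have : Fintype {v : HeightOneSpectrum (𝓞 K) // nm v = n} :=
    Fintype.subtype (fib K n) fun v => mem_fib
  have h2 := hasProd_fintype (fun v : {v : HeightOneSpectrum (𝓞 K) // nm v = n} =>
    ∏ j, (1 - α v.1 j * (nm v.1 : ℂ) ^ (-(s + i)))⁻¹)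
  have h3 : ∏ v ∈ fib K n, exp (lfac i α s v) =
      ∏ v : {v : HeightOneSpectrum (𝓞 K) // nm v = n},
        ∏ j, (1 - α v.1 j * (nm v.1 : ℂ) ^ (-(s + i)))⁻¹ := by
    have e : ∀ v : HeightOneSpectrum (𝓞 K), exp (lfac i α s v) =
        ∏ j, (1 - α v j * (nm v : ℂ) ^ (-(s + i)))⁻¹ := by
      intro v
      rw [exp_lfac h s hs1 v]
      refine Finset.prod_congr rfl fun j _ => ?_
      rw [fac_shift]
    rw [Finset.prod_congr rfl fun v _ => e v]
    exact Finset.prod_subtype (fib K n) (fun v => mem_fib) _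
  rw [h3]
  exact h2

lemma EP_eq (i : ℕ) (α : HeightOneSpectrum (𝓞 K) → Fin d → ℂ) (x : ℕ) :
    EP i d α x = ∏ n ∈ Finset.Icc 1 x, ∏ v ∈ fib K n,
      ∏ j, ‖1 - α v j / (nm v : ℂ) ^ (i + 1)‖ := by
  classical
  unfold EP
  have hsub : Function.mulSupport (fun v : HeightOneSpectrum (𝓞 K) =>
      if Ideal.absNorm v.asIdeal ≤ x then
      ∏ j, ‖1 - α v j / (Ideal.absNorm v.asIdeal : ℂ) ^ (i + 1)‖ else 1) ⊆
      ((Finset.Icc 1 x).biUnion (fib K) : Finset (HeightOneSpectrum (𝓞 K))) := by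
    intro v hv
    rw [Function.mem_mulSupport] at hv
    have h1 : Ideal.absNorm v.asIdeal ≤ x := by
      by_contra h
      exact hv (if_neg h)
    rw [Finset.mem_coe, Finset.mem_biUnion]
    refine ⟨nm v, Finset.mem_Icc.2 ⟨?_, h1⟩, mem_fib.2 rfl⟩
    have := two_le_nm v
    omega
  rw [finprod_eq_prod_of_mulSupport_subset _ hsub, Finset.prod_biUnion]
  · refine Finset.prod_congr rfl fun n hn => Finset.prod_congr rfl fun v hv => ?_
    have h1 : nm v = n := mem_fib.1 hv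
    have h2 : Ideal.absNorm v.asIdeal ≤ x := by
      have : Ideal.absNorm v.asIdeal = n := h1
      rw [this]
      exact (Finset.mem_Icc.1 hn).2
    rw [if_pos h2]
    rfl
  · intro m _ n _ hmn
    rw [Function.onFun, Finset.disjoint_left]
    intro v h1 h2
    exact hmn ((mem_fib.1 h1).symm.trans (mem_fib.1 h2))

lemma term_pos (h : Sys i d α) (v : HeightOneSpectrum (𝓞 K)) (j : Fin d) :
    (0 : ℝ) < ‖1 - α v j / (nm v : ℂ) ^ (i + 1)‖ := by
  rw [norm_pos_iff]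
  have h1 := one_sub_ne h v j 1 (by simp)
  have hc : (nm v : ℂ) ≠ 0 := by
    have := nmp v
    exact_mod_cast this.ne'
  have e : be i α v j * (nm v : ℂ) ^ (-(1 : ℂ)) = α v j / (nm v : ℂ) ^ (i + 1) := by
    unfold be
    rw [Complex.cpow_neg_one]
    field_simp
    ring
  rwa [e] at h1

lemma EP_pos (h : Sys i d α) (x : ℕ) : 0 < EP i d α x := by
  rw [EP_eq]
  exact Finset.prod_pos fun n _ => Finset.prod_pos fun v _ => Finset.prod_pos fun j _ => term_pos h v j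

open Classical in
lemma log_EP (h : Sys i d α) (x : ℕ) :
    Real.log (EP i d α x) = GenN.lE (GenN.ellc (gd K) (cc i α)) x := by
  rw [EP_eq, Real.log_prod]
  · unfold GenN.lE
    refine Finset.sum_congr rfl fun n _ => ?_
    rw [ellc_eq h, Real.log_prod]
    · refine Finset.sum_congr rfl fun v _ => ?_
      rw [Real.log_prod]
      intro j _
      exact (term_pos h v j).ne'
    · intro v _
      exact (Finset.prod_pos fun j _ => term_pos h v j).ne'
  · intro n _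
    exact (Finset.prod_pos fun v _ => Finset.prod_pos fun j _ => term_pos h v j).ne'

/-- The equivalences for arbitrary systems of Frobenius eigenvalues. -/
theorem iff_mot (h : Sys i d α) {G : ℂ → ℂ} (hG : IsL i d α G)
    (hgr : ∃ C N : ℝ, ∀ s : ℂ, (i : ℝ) + 1 ≤ s.re → ‖G s‖ ≤ C * (1 + ‖s‖) ^ N) :
    ∃ m : ℕ, analyticOrderAt G (i + 1) = m ∧ ∀ κ : ℝ,
      ((∃ C : ℝ, ∀ x : ℕ, LA i d α κ x ≤ C) ↔
        (∀ s : ℂ, (i : ℝ) + 1 < s.re → G s ≠ 0) ∧ (m : ℝ) ≤ κ) ∧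
      ((∃ C : ℝ, ∀ x : ℕ, |LA i d α κ x| ≤ C) ↔
        (∀ s : ℂ, (i : ℝ) + 1 < s.re → G s ≠ 0) ∧ κ = m) ∧
      ((∀ σ : ℝ, (i : ℝ) + 1 < σ → G σ ≠ 0) → ((∃ C : ℝ, ∀ x : ℕ, C ≤ LA i d α κ x) ↔
        (∀ s : ℂ, (i : ℝ) + 1 < s.re → G s ≠ 0) ∧ κ ≤ m)) := by
  classical
  have hgr' : ∃ C N : ℝ, ∀ s : ℂ, 1 ≤ s.re →
      ‖(fun s : ℂ => G (s + i)) s‖ ≤ C * (1 + ‖s‖) ^ N := by
    obtain ⟨C, N, h⟩ := hgr
    refine ⟨|C| * ((i : ℝ) + 1) ^ |N|, |N|, fun s hs => ?_⟩
    have h1 := h (s + i) (by simp; linarith)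
    have hn : 0 ≤ ‖s‖ := norm_nonneg s
    have hi : (0 : ℝ) ≤ i := Nat.cast_nonneg i
    have h2 : 1 + ‖s + i‖ ≤ ((i : ℝ) + 1) * (1 + ‖s‖) := by
      have h3 := norm_add_le s (i : ℂ)
      rw [Complex.norm_natCast] at h3
      nlinarith
    have h3 : (1 : ℝ) ≤ 1 + ‖s + i‖ := by have := norm_nonneg (s + i); linarith
    calc ‖G (s + i)‖ ≤ C * (1 + ‖s + i‖) ^ N := h1
      _ ≤ |C| * (1 + ‖s + i‖) ^ N :=
          mul_le_mul_of_nonneg_right (le_abs_self _) (by positivity)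
      _ ≤ |C| * (1 + ‖s + i‖) ^ |N| :=
          mul_le_mul_of_nonneg_left (Real.rpow_le_rpow_of_exponent_le h3 (le_abs_self _))
            (abs_nonneg _)
      _ ≤ |C| * (((i : ℝ) + 1) * (1 + ‖s‖)) ^ |N| :=
          mul_le_mul_of_nonneg_left (Real.rpow_le_rpow (by linarith) h2 (abs_nonneg _))
            (abs_nonneg _)
      _ = |C| * ((i : ℝ) + 1) ^ |N| * (1 + ‖s‖) ^ |N| := by
          rw [Real.mul_rpow (by positivity) (by positivity)]; ring
  have hpos : (0 : ℝ) ≤ (d : ℝ) * Module.finrank ℚ K := by positivity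
  obtain ⟨m, hm, hmain⟩ := iff_gen
    (GenN.locC (good := gd K) (c := cc i α) (fun _ h => gd_two h) hpos
      (fun _ hn m _ => cc_le h hn m) gd_sum)
    (cbC (good := gd K) (c := cc i α) (fun _ h => gd_two h) hpos (fun _ hn m _ => cc_le h hn m))
    (F := fun s => G (s + i)) (hG.1.comp (by fun_prop)) (fun s hs => prodG h hG s hs) hgr'
  have hord : analyticOrderAt G (i + 1) = m := by
    rw [← hm]
    have h3 := analyticOrderAt_comp_of_deriv_ne_zero (f := G) (g := fun s : ℂ => s + i) (z₀ := 1)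
      (by fun_prop) (by
        have : deriv (fun s : ℂ => s + i) 1 = 1 := by simp
        rw [this]; exact one_ne_zero)
    have e : ((i : ℂ) + 1) = (fun s : ℂ => s + i) 1 := by simp [add_comm]
    rw [e]
    exact h3.symm
  have hRH : (∀ s : ℂ, 1 < s.re → (fun s : ℂ => G (s + i)) s ≠ 0) ↔
      (∀ s : ℂ, (i : ℝ) + 1 < s.re → G s ≠ 0) := by
    constructor
    · intro h s hs
      have := h (s - i) (by simp; linarith)
      simpa using this
    · intro h s hs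
      exact h (s + i) (by simp; linarith)
  have hLA : ∀ κ x, LA i d α κ x = GenN.LA (GenN.lE (GenN.ellc (gd K) (cc i α))) κ x := by
    intro κ x
    unfold LA GenN.LA
    simp_rw [log_EP h]
  refine ⟨m, hord, fun κ => ?_⟩
  simp_rw [hLA]
  obtain ⟨k1, k2, k3⟩ := hmain κ
  rw [hRH] at k1 k2
  refine ⟨k1, k2, fun hreal => ?_⟩
  have k4 := k3 (fun σ hσ => by
    have := hreal (σ + i) (by linarith)
    intro h0
    apply this
    rw [← h0]
    push_cast
    rfl)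
  rw [hRH] at k4
  exact k4

end Pool.Agent.H820R3.BSDN.Mot
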